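import Pool.Agent.H47.OI.Defs

/-!
# Module Ace: points of approximate continuity

PROOF. For every `q` in the countable dense set of complex numbers with rational coordinates and rational `ε` let `A = {z | ‖μ z - q‖ < ε}` (measurable). By the Lebesgue density theorem (`Besicovitch.ae_tendsto_measure_inter_div_of_measurableSet` or the Vitali family version) almost every `x ∈ A` has density `1` of `A`: `volume (ball x ρ \ A) / volume (ball x ρ) → 0` (from closed balls to open balls: library has such statements, e.g. H15/LOC, H61/TT).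
Off the countable union of the null sets: for `ε` choose `q` with `‖μ x - q‖ < ε / 2`; `{ε ≤ ‖μ z - μ x‖}` is in the complement of `{‖μ z - q‖ < ε / 2}`.
-/

set_option autoImplicit false

open Filter Topology Metric Set MeasureTheory

namespace Pool.Agent.H47.MM

open Pool.Agent.H47.OI (AC)

theorem ace {μ : ℂ → ℂ} (hμ : Measurable μ) : ∀ᵐ x : ℂ, AC μ x (μ x) := by
  have hA : ∀ n m : ℕ, MeasurableSet
      {z : ℂ | ‖μ z - TopologicalSpace.denseSeq ℂ n‖ < 1 / ((m : ℝ) + 1)}ᶜ := by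
    intro n m
    refine MeasurableSet.compl ?_
    exact measurableSet_lt ((hμ.sub measurable_const).norm) measurable_const
  have h1 : ∀ᵐ x : ℂ, ∀ n m : ℕ, Tendsto (fun r : ℝ => volume
      ({z : ℂ | ‖μ z - TopologicalSpace.denseSeq ℂ n‖ < 1 / ((m : ℝ) + 1)}ᶜ ∩ closedBall x r) /
        volume (closedBall x r)) (𝓝[>] 0)
      (𝓝 (({z : ℂ | ‖μ z - TopologicalSpace.denseSeq ℂ n‖ < 1 / ((m : ℝ) + 1)}ᶜ).indicator 1 x)) := by
    refine ae_all_iff.2 fun n => ae_all_iff.2 fun m => ?_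
    exact Besicovitch.ae_tendsto_measure_inter_div_of_measurableSet volume (hA n m)
  filter_upwards [h1] with x hx
  intro ε hε
  obtain ⟨m, hm⟩ := exists_nat_one_div_lt (half_pos hε)
  have hm0 : (0 : ℝ) < 1 / ((m : ℝ) + 1) := by positivity
  obtain ⟨n, hn⟩ := (TopologicalSpace.denseRange_denseSeq ℂ).exists_dist_lt (μ x) hm0
  have h2 := hx n m
  have h3 : x ∉ {z : ℂ | ‖μ z - TopologicalSpace.denseSeq ℂ n‖ < 1 / ((m : ℝ) + 1)}ᶜ := by
    intro h
    apply h
    show ‖μ x - TopologicalSpace.denseSeq ℂ n‖ < 1 / ((m : ℝ) + 1)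
    rw [← dist_eq_norm]
    exact hn
  rw [Set.indicator_of_notMem h3] at h2
  refine tendsto_of_tendsto_of_tendsto_of_le_of_le tendsto_const_nhds h2 (fun _ => zero_le) ?_
  intro ρ
  show volume (ball x ρ ∩ {z | ε ≤ ‖μ z - μ x‖}) / volume (ball x ρ) ≤ _
  have h4 : volume (closedBall x ρ) = volume (ball x ρ) :=
    Measure.addHaar_closedBall_eq_addHaar_ball volume x ρ
  beta_reduce
  rw [h4]
  refine ENNReal.div_le_div_right (measure_mono ?_) _
  rintro z ⟨hz1, hz2⟩
  refine ⟨fun hz3 => ?_, ball_subset_closedBall hz1⟩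
  have hz4 : ‖μ z - TopologicalSpace.denseSeq ℂ n‖ < 1 / ((m : ℝ) + 1) := hz3
  have hz5 : ε ≤ ‖μ z - μ x‖ := hz2
  have h5 : ‖μ z - μ x‖ ≤ ‖μ z - TopologicalSpace.denseSeq ℂ n‖ +
      ‖TopologicalSpace.denseSeq ℂ n - μ x‖ := by
    have h6 : μ z - μ x = (μ z - TopologicalSpace.denseSeq ℂ n) +
        (TopologicalSpace.denseSeq ℂ n - μ x) := by ring
    rw [h6]
    exact norm_add_le _ _
  have h7 : ‖TopologicalSpace.denseSeq ℂ n - μ x‖ < 1 / ((m : ℝ) + 1) := by
    rw [← dist_eq_norm, dist_comm]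
    exact hn
  linarith

end Pool.Agent.H47.MM
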