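import Pool.Agent.H47.OI.Defs
import Pool.Agent.H91.ATT.Lf
import Pool.Agent.H44.RC.SMB

/-!
# THEOREM M (no contracting scale): definitions

Everything is planar: `f = rat a b` fixes infinity, `Un G`: `G` is univalent on the unit disc, `Me e` the Moebius map of the disc with `0 ↦ e`, `FF e p q w = (Me e (w ^ p)) ^ q` (two passes), `pb μ Φ` the field `μ` pulled back by `Φ`, `FI f μ`: `μ` is invariant everywhere in the plane (zero off its support).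
`Hyp a b C`: `C` is the finite set of the critical points in the Julia set, the orbits of the other critical points stay away from `C`. `Sys a b C L ε g ψ l`: for `c ∈ C` a univalent `g c` with `g c 0 = f c` (a small domain at the critical value) and the univalent `ψ c`, `ψ c 0 = c`, `f (ψ c w) = g c (w ^ l c)` (its pull back at `c`).
`Nice a b C g ψ k`: every univalent pull back of a `ψ c` which contains a critical value `f b`, `b ∈ C`, lies in the `k`-part of `g b`. `NoTwo f x L s t g`: `x` is not in the `s`-part of a univalent `Φ` such that `f^n (Φ w) = g (FF e p q w)` with `‖e‖ ≤ t`.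
-/

set_option autoImplicit false

open Filter Topology Polynomial Metric Set MeasureTheory

namespace Pool.Agent.H47.MM

open Pool.Agent.H44.Fatou (rat)
open Pool.Agent.H32.BT (IsCrit)
open Pool.Agent.H44.RC (JS J6)
open Pool.Agent.H91.ATT (fp)

/-- univalent on the unit disc -/
def Un (G : ℂ → ℂ) : Prop := DifferentiableOn ℂ G (ball 0 1) ∧ InjOn G (ball 0 1)

/-- the Moebius map of the disc which sends `0` to `e` -/
noncomputable def Me (e w : ℂ) : ℂ := (w + e) / (1 + (starRingEnd ℂ) e * w)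

/-- two passes -/
noncomputable def FF (e : ℂ) (p q : ℕ) (w : ℂ) : ℂ := Me e (w ^ p) ^ q

/-- the field pulled back by `Φ` -/
noncomputable def pb (μ Φ : ℂ → ℂ) (w : ℂ) : ℂ := μ (Φ w) * (starRingEnd ℂ) (deriv Φ w) / deriv Φ w

/-- the field `μ` is invariant everywhere in the plane -/
def FI (f : OnePoint ℂ → OnePoint ℂ) (μ : ℂ → ℂ) : Prop :=
  ∀ z w : ℂ, f (z : OnePoint ℂ) = (w : OnePoint ℂ) →
    μ w * (starRingEnd ℂ) (deriv (fun t : ℂ => fp (f (t : OnePoint ℂ))) z) =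
      μ z * deriv (fun t : ℂ => fp (f (t : OnePoint ℂ))) z

/-- the critical points in the Julia set -/
structure Hyp (a b : Polynomial ℂ) (C : Set ℂ) : Prop where
  cop : IsCoprime a b
  deg : 2 ≤ max a.natDegree b.natDegree
  inf : rat a b OnePoint.infty = OnePoint.infty
  fin : C.Finite
  crt : ∀ c ∈ C, IsCrit (rat a b) (c : OnePoint ℂ)
  jul : ∀ c ∈ C, (c : OnePoint ℂ) ∈ JS (rat a b)
  off : ∃ ρ : ℝ, 0 < ρ ∧ ∀ c' : OnePoint ℂ, IsCrit (rat a b) c' → (∀ c ∈ C, c' ≠ (c : OnePoint ℂ)) → ∀ n : ℕ,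
    ∀ c ∈ C, ∀ z : ℂ, (rat a b)^[n] c' = (z : OnePoint ℂ) → ρ ≤ ‖z - c‖

/-- small domains at the critical values and their pull backs at the critical points -/
structure Sys (a b : Polynomial ℂ) (C : Set ℂ) (L : ℕ) (ε : ℝ) (g ψ : ℂ → ℂ → ℂ) (l : ℂ → ℕ) : Prop where
  gu : ∀ c ∈ C, Un (g c)
  gs : ∀ c ∈ C, ∀ w ∈ ball (0 : ℂ) 1, ‖g c w - g c 0‖ < ε
  pu : ∀ c ∈ C, Un (ψ c)
  p0 : ∀ c ∈ C, ψ c 0 = c
  ps : ∀ c ∈ C, ∀ w ∈ ball (0 : ℂ) 1, ‖ψ c w - c‖ < ε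
  l2 : ∀ c ∈ C, 2 ≤ l c
  lL : ∀ c ∈ C, l c ≤ L
  fp : ∀ c ∈ C, ∀ w ∈ ball (0 : ℂ) 1, rat a b ((ψ c w : ℂ) : OnePoint ℂ) = ((g c (w ^ l c) : ℂ) : OnePoint ℂ)

/-- univalent pull backs of the `ψ c` which contain a critical value are in the `k`-part -/
def Nice (a b : Polynomial ℂ) (C : Set ℂ) (g ψ : ℂ → ℂ → ℂ) (k : ℝ) : Prop :=
  ∀ c ∈ C, ∀ b' ∈ C, ∀ (n : ℕ) (G : ℂ → ℂ), Un G →
    (∀ w ∈ ball (0 : ℂ) 1, (rat a b)^[n] ((G w : ℂ) : OnePoint ℂ) = ((ψ c w : ℂ) : OnePoint ℂ)) →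
    (∃ w ∈ ball (0 : ℂ) 1, rat a b ((b' : ℂ) : OnePoint ℂ) = ((G w : ℂ) : OnePoint ℂ)) →
    ∀ w ∈ ball (0 : ℂ) 1, ∃ u : ℂ, ‖u‖ < k ∧ G w = g b' u

/-- no two passes over `x` -/
def NoTwo (f : OnePoint ℂ → OnePoint ℂ) (x : ℂ) (L : ℕ) (s t : ℝ) (g : ℂ → ℂ) : Prop :=
  ∀ (n p q : ℕ), 2 ≤ p → p ≤ L → 2 ≤ q → q ≤ L → ∀ e : ℂ, ‖e‖ ≤ t → ∀ Φ : ℂ → ℂ, Un Φ →
    (∀ w ∈ ball (0 : ℂ) 1, f^[n] ((Φ w : ℂ) : OnePoint ℂ) = ((g (FF e p q w) : ℂ) : OnePoint ℂ)) →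
    ∀ w0 : ℂ, ‖w0‖ ≤ s → Φ w0 ≠ x

end Pool.Agent.H47.MM
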