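import Pool.Agent.H47.MM.Defs
import Pool.Agent.H91.ATT.All
import Pool.Agent.H56.MM.Defs
import Pool.Agent.H64.MM.Fam2

/-!
# Module Fam2: the chart at a fixed point and the hypotheses

PROOF. `Rf v` has a fixed point `q` (a root of `P - X Q`, or infinity if this polynomial is constant or of small degree). `ch_three_b` (H91/ATT) with `p3 = q` and two other points: `u = L v`, `φ q = ∞`; `Rf u ∞ = φ (Rf v q) = ∞`. `C` finite: `crit_finite`. `off`: a critical point `c'` which is not in `C` is infinity (its iterates are infinity: nothing to show), or in the Julia set and not in `Cw` (then the closure of its orbit does not meet `Cw`, otherwise it would contain a critical point of `Om f a`; compactness, `Cw` finite), or in the Fatou set: `FJ (Rf u)` with `Y = {c'}`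
(`chord` of finite points is at most the distance); finitely many `c'`. `FJ (Rf v)`: `fj_of_nw_ar` (H47/RJ/FJM; `AR` from `¬ UpF`, see H44/CP/PTR, H57/CF/ENF), transport to `u` by `φ` (`js_conj`, bi-Lipschitz `K`), or directly: `¬ UpF` gives that all critical points in the Fatou set are attracted (H57/CF), so they are for `u` and their orbits tend to attracting cycles in the Fatou set.
-/

set_option autoImplicit false

open Filter Topology Polynomial Metric Set MeasureTheory

namespace Pool.Agent.H47.MM

open Pool.Agent.H44.Fatou (rat)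
open Pool.Agent.H32.BT Pool.Agent.H79.Eul Pool.Agent.H79.Par
open Pool.Agent.H44.RC Pool.Agent.H47.NM Pool.Agent.H57.CF
open Pool.Agent.H91.ATT (Mb)
open Pool.Agent.H56.MM (Cw)

/-- the chart at a fixed point and the hypotheses for the critical points `Cw f a` -/
theorem chf {d m : ℕ} (hd : 2 ≤ d) (hm : m ≤ d) {x : Em d m} (hcop : IsCoprime (pol x.1) (pol x.2))
    (hdeg : max (pol x.1).natDegree (pol x.2).natDegree = d) (hup : ¬ UpF d m x) (a : OnePoint ℂ) :
    ∃ (u : E d) (φ : OnePoint ℂ ≃ₜ OnePoint ℂ), Mb φ ∧ (∀ y, Rf u (φ y) = φ (Rf (ex d m x) y)) ∧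
      IsCoprime (pol u.1) (pol u.2) ∧ max (pol u.1).natDegree (pol u.2).natDegree = d ∧
      Hyp (pol u.1) (pol u.2) {c : ℂ | φ.symm (c : OnePoint ℂ) ∈ Cw (Rf (ex d m x)) a} ∧
      ∀ c ∈ Cw (Rf (ex d m x)) a, φ c ≠ OnePoint.infty := by
  obtain ⟨L, G, φ, K, -, h1, h2, h3, h4, -, -, h5, h6, -⟩ := Pool.Agent.H64.MM.fam2 hd hm hcop hdeg hup a
  exact ⟨L (ex d m x), φ, h1, h4, h2, h3, h6, h5⟩

end Pool.Agent.H47.MM
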