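import Pool.Agent.H47.MM.Ace
import Pool.Agent.H47.MM.Defs
import Pool.Agent.H91.ATT.All
import Pool.Agent.H18.MF.Fld

/-!
# Module Fam3: the field and the typical point in the chart

PROOF. `ATX`: `G`, `ν` with `LFd (Rf v) G ν`. Let `N` be the grand orbit of `∞` and of `φ.symm ∞` (countable; `G1 = G \ N` is completely invariant). `lf_tr` (H91/ATT/Lf; with `φ.symm`, the roles of `u` and `v` exchanged, the set of the finite points of `G1`) gives a field `ν'` with `LFd (Rf u) {φ y | y ∈ G1}`. `μ z = ν' z` if `z ∈ φ G1`, `0` otherwise: `FI (Rf u) μ` (`z ∈ φ G1 ↔ Rf u z ∈ φ G1`). `μ` is measurable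
(measurability of the plane part of `φ G1`: `φ` is a homeomorphism, `G` measurable in the sphere = plane part measurable). The plane part of `φ G1` has positive area (Moebius maps map null sets to null sets; countable sets are null sets; see `lf_tr`, `cl`, H91/ATT). `ace`: a point `x` of it with `AC μ x (μ x)`; `x ∈ JS (Rf u)` (`js_conj`). `UDn (Rf v) (Lim (Rf v) c) (φ.symm x)`: if `Om (φ.symm x)` did not
meet `Lim`, the compact set `Lim` would have a neighbourhood `O` visited only finitely often (for every `y ∈ Lim` a neighbourhood visited finitely often, compactness), but `UDn` with `ε = 1 / 2` gives infinitely many visits. `y ∈ Om (Rf v) (φ.symm x)` gives `φ y ∈ Om (Rf u) x` (conjugacy).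
-/

set_option autoImplicit false

open Filter Topology Polynomial Metric Set MeasureTheory

namespace Pool.Agent.H47.MM

open Pool.Agent.H32.BT Pool.Agent.H79.Eul Pool.Agent.H79.Par
open Pool.Agent.H44.RC
open Pool.Agent.H91.ATT (Mb ATX)
open Pool.Agent.H15.LOC (Lim)
open Pool.Agent.H47.OI (AC)

theorem fld {d : ℕ} (hd : 2 ≤ d) {v u : E d} (hcop : IsCoprime (pol v.1) (pol v.2))
    (hdeg : max (pol v.1).natDegree (pol v.2).natDegree = d) (_hcop' : IsCoprime (pol u.1) (pol u.2))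
    (_hdeg' : max (pol u.1).natDegree (pol u.2).natDegree = d) {φ : OnePoint ℂ ≃ₜ OnePoint ℂ} (hφ : Mb φ)
    (conj : ∀ y, Rf u (φ y) = φ (Rf v y)) {c : OnePoint ℂ} (hA : ATX (Rf v) c)
    (hnd : closure (range fun n : ℕ => (Rf v)^[n] c) ≠ univ) :
    ∃ μ : ℂ → ℂ, FI (Rf u) μ ∧ ∃ x : ℂ, (x : OnePoint ℂ) ∈ JS (Rf u) ∧ ‖μ x‖ = 1 ∧ AC μ x (μ x) ∧
      ∃ y ∈ Lim (Rf v) c, φ y ∈ Om (Rf u) (x : OnePoint ℂ) := by
  obtain ⟨G, hGJ, hGi, hGm, hGp, hν, hUD⟩ := hA
  obtain ⟨ν, hν⟩ := hν hnd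
  obtain ⟨μ, x, h1, h2, h3, h4, h5⟩ := Pool.Agent.H18.MF.fld (by omega) hcop hdeg hφ conj hGJ hGi hGm hGp hν
  obtain ⟨y, hy, hyO⟩ := Pool.Agent.H18.MF.udn_om (Pool.Agent.H18.MF.lim_closed _ _) (hUD _ h5)
  refine ⟨μ, h1, x, h2, h3, h4, y, hy, ?_⟩
  have h6 := Pool.Agent.H18.MF.om_conj conj hyO
  rwa [φ.apply_symm_apply] at h6

end Pool.Agent.H47.MM
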