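import Pool.Agent.H47.MM.Ker
import Pool.Agent.H47.MM.Fam2
import Pool.Agent.H47.MM.Fam3
import Pool.Agent.H91.MM.Fam1
import Pool.Agent.H39.EMB.Fin

/-!
# THEOREM M for the families

`ncs_fam`: `MStm`, from the kernel `ker`, the chart at a fixed point `chf`, the field and the typical point `fld` and the comparison `fam1` of systems on the sphere and in the plane. `om_closed`, `om_ne`, `om_inv`, `om_sub`, `om_conj`: limit sets.
-/

set_option autoImplicit false

open Filter Topology Polynomial Metric Set MeasureTheory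

namespace Pool.Agent.H47.MM

open Pool.Agent.H44.Fatou (rat rat_continuous)
open Pool.Agent.H32.BT Pool.Agent.H79.Eul Pool.Agent.H79.Par
open Pool.Agent.H44.RC Pool.Agent.H47.NM Pool.Agent.H57.CF
open Pool.Agent.H91.ATT (Mb ATX atx_fam fp fp_coe)
open Pool.Agent.H91.MM (coe_fp)
open Pool.Agent.H15.LOC (Lim)
open Pool.Agent.H56.MM (Cw)
open Pool.Agent.H64.TP (KK)
open Pool.Agent.H64.JS (KJ)

/-- the limit set is the set of the cluster points -/
theorem om_iff {f : OnePoint ℂ → OnePoint ℂ} {a y : OnePoint ℂ} :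
    y ∈ Om f a ↔ MapClusterPt y atTop fun n : ℕ => f^[n] a := mapClusterPt_iff_frequently.symm

theorem om_closed (f : OnePoint ℂ → OnePoint ℂ) (a : OnePoint ℂ) : IsClosed (Om f a) := by
  have h1 : Om f a = {y | ClusterPt y (map (fun n : ℕ => f^[n] a) atTop)} := by
    ext y
    exact om_iff
  rw [h1]
  exact isClosed_setOfPred_clusterPt

theorem om_ne (f : OnePoint ℂ → OnePoint ℂ) (a : OnePoint ℂ) : (Om f a).Nonempty := by
  obtain ⟨y, hy⟩ := exists_clusterPt_of_compactSpace (map (fun n : ℕ => f^[n] a) atTop)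
  exact ⟨y, om_iff.2 hy⟩

/-- limit sets are carried over by semiconjugacies -/
theorem om_conj {f g φ : OnePoint ℂ → OnePoint ℂ} (hφ : Continuous φ) (conj : ∀ y, g (φ y) = φ (f y)) {a y : OnePoint ℂ}
    (hy : y ∈ Om f a) : φ y ∈ Om g (φ a) := by
  intro U hU
  have hit : ∀ n : ℕ, g^[n] (φ a) = φ (f^[n] a) := by
    intro n
    induction n with
    | zero => rfl
    | succ n ih => rw [Function.iterate_succ_apply', Function.iterate_succ_apply', ih, conj]
  refine (hy _ (hφ.continuousAt.preimage_mem_nhds hU)).mono fun n hn => ?_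
  rw [hit n]
  exact hn

theorem om_inv {f : OnePoint ℂ → OnePoint ℂ} (hf : Continuous f) {a y : OnePoint ℂ} (hy : y ∈ Om f a) : f y ∈ Om f a := by
  intro U hU
  rw [frequently_atTop]
  intro N
  obtain ⟨n, hn, h1⟩ := (frequently_atTop.1 (hy _ (hf.continuousAt.preimage_mem_nhds hU))) N
  refine ⟨n + 1, by omega, ?_⟩
  rw [Function.iterate_succ_apply']
  exact h1

/-- a closed set which contains the orbit from some time on contains the limit set -/
theorem om_sub {f : OnePoint ℂ → OnePoint ℂ} {a : OnePoint ℂ} {A : Set (OnePoint ℂ)} (hA : IsClosed A)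
    (h : ∀ n : ℕ, 1 ≤ n → f^[n] a ∈ A) : Om f a ⊆ A := by
  intro y hy
  rw [← hA.closure_eq, mem_closure_iff_nhds]
  intro U hU
  obtain ⟨n, hn, h1⟩ := (frequently_atTop.1 (hy U hU)) 1
  exact ⟨_, h1, h n hn⟩

/-- a dense orbit has full limit set -/
theorem om_dense {f : OnePoint ℂ → OnePoint ℂ} {a : OnePoint ℂ} (h : closure (range fun n : ℕ => f^[n] a) = univ)
    (y : OnePoint ℂ) : y ∈ Om f a := by
  intro U hU
  rw [frequently_atTop]
  intro N
  have hF : ((fun n : ℕ => f^[n] a) '' {n | n < N}).Finite := (finite_lt_nat N).image _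
  obtain ⟨z, hz, hzF⟩ := ((infinite_of_mem_nhds y (interior_mem_nhds.2 hU)).sdiff hF).nonempty
  have hV : interior U \ ((fun n : ℕ => f^[n] a) '' {n | n < N}) ∈ 𝓝 z :=
    (isOpen_interior.sdiff hF.isClosed).mem_nhds ⟨hz, hzF⟩
  have hzc : z ∈ closure (range fun n : ℕ => f^[n] a) := h ▸ mem_univ z
  obtain ⟨_, h1, n, rfl⟩ := mem_closure_iff_nhds.1 hzc _ hV
  refine ⟨n, ?_, interior_subset h1.1⟩
  by_contra hn
  exact h1.2 ⟨n, by simpa using hn, rfl⟩

variable {d : ℕ}

/-- the Julia set is mapped into itself -/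
theorem js_step {v : E d} (hd : 1 ≤ d) (hcop : IsCoprime (pol v.1) (pol v.2))
    (hdeg : max (pol v.1).natDegree (pol v.2).natDegree = d) {z : OnePoint ℂ} (hz : z ∈ JS (Rf v)) : Rf v z ∈ JS (Rf v) :=
  fun h1 => hz ((Pool.Agent.H47.RJ.fs_iff hd hcop hdeg 1 z).1 h1)

/-- THEOREM M, all families -/
theorem ncs_fam : Pool.Agent.H56.MM.MStm := by
  intro d m hd hm x hcop hdeg hup a ha haJ hN k hk
  have hcopv := ex_cop (x := x) hcop
  have hdegv := ex_deg (x := x) hdeg
  obtain ⟨f, hf⟩ : ∃ f, f = Rf (ex d m x) := ⟨_, rfl⟩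
  have hfc : Continuous f := by
    rw [hf]
    exact rat_continuous hcopv
  have hJf : ∀ z ∈ JS f, f z ∈ JS f := by
    rw [hf]
    exact fun z hz => js_step (by omega) hcopv hdegv hz
  have hJit : ∀ n : ℕ, f^[n] a ∈ JS f := by
    intro n
    induction n with
    | zero =>
      rw [hf]
      exact haJ
    | succ n ih =>
      rw [Function.iterate_succ_apply']
      exact hJf _ ih
  have hOJ : Om f a ⊆ JS f := om_sub (Pool.Agent.H47.RJ.js_closed f) fun n _ => hJit n
  have hOK : Om f a ⊆ KK f := by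
    refine om_sub isClosed_closure fun n hn => subset_closure ⟨a, ?_, hJit 0, n, hn, rfl⟩
    rw [hf]
    exact ha
  -- the hypothesis (N)
  have hNN : ∀ A ⊆ Om f a, IsClosed A → A.Nonempty → (∀ z ∈ A, f z ∈ A) → ∃ c ∈ A, IsCrit f c := by
    rw [← hf] at hN
    rcases hN with htd | hN
    · intro A hA hAc hAn hAf
      have h1 := Pool.Agent.H39.HO.nfp_all hd hm hcop hdeg hup
      rw [← hf] at h1
      obtain ⟨y, hy, h3⟩ := h1 A (hA.trans hOK) hAc hAn hAf
      have hyK : y ∈ KK f := hOK (hA hy)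
      have h4 : connectedComponentIn (KJ {c | IsCrit f c} (JS f) f) y = {y} :=
        Subset.antisymm (fun z hz => htd _ (connectedComponentIn_subset _ _) isPreconnected_connectedComponentIn hz
          (mem_connectedComponentIn hyK)) (singleton_subset_iff.2 (mem_connectedComponentIn hyK))
      rw [h4] at h3
      rcases h3 with h3 | ⟨c, hc, hcr⟩
      · exact absurd (Pool.Agent.H39.EMB.compl_pt y) h3
      · rw [mem_singleton_iff] at hc
        subst hc
        exact ⟨c, hy, hcr⟩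
    · exact hN
  -- the chart at a fixed point
  obtain ⟨u, φ, hMb, conj, hcopu, hdegu, hHyp, hfin⟩ := chf hd hm hcop hdeg hup a
  rw [← hf] at conj hHyp hfin
  have hJ6 : J6 (Rf u) := j6_of hd hcopu hdegu
  obtain ⟨q, hq⟩ : ∃ q, q = φ.symm OnePoint.infty := ⟨_, rfl⟩
  have hφq : φ q = OnePoint.infty := by rw [hq, φ.apply_symm_apply]
  have hfq : f q = q := by
    apply φ.injective
    rw [← conj, hφq]
    exact hHyp.inf
  -- the fixed point is not in the limit set
  have hqO : q ∉ Om f a := by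
    intro h1
    obtain ⟨c, hc, hcr⟩ := hNN {q} (singleton_subset_iff.2 h1) isClosed_singleton (singleton_nonempty q) (by
      intro z hz
      rw [mem_singleton_iff] at hz ⊢
      rw [hz]
      exact hfq)
    rw [mem_singleton_iff] at hc
    rw [hc] at hcr
    have h2 := Pool.Agent.H39.EMB.crit_nper hd hm hcop hdeg hup (c := q) (by rw [← hf]; exact hcr)
      (by rw [← hf]; exact hOJ h1) (le_refl 1)
    rw [← hf] at h2
    exact h2 hfq
  have hnd : closure (range fun n : ℕ => f^[n] a) ≠ univ := fun h1 => hqO (om_dense h1 q)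
  -- the field and the typical point
  have hA := atx_fam hd hm hcop hdeg hup ha haJ
  obtain ⟨μ, hFI, x0, hx0, hn1, hAC, y, hyL, hyO⟩ := fld hd hcopv hdegv hcopu hdegu hMb
    (by rw [← hf]; exact conj) hA (by rw [← hf]; exact hnd)
  rw [← hf] at hyL
  have hyO' : y ∈ Om f a := om_iff.2 hyL
  -- a critical point in the limit set of the typical point
  obtain ⟨a0', ⟨ha0O, ha0x⟩, ha0c⟩ := hNN {z | z ∈ Om f a ∧ φ z ∈ Om (Rf u) (x0 : OnePoint ℂ)} (fun z hz => hz.1)
    ((om_closed f a).inter ((om_closed (Rf u) _).preimage φ.continuous)) ⟨y, hyO', hyO⟩ (by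
      rintro z ⟨h1, h2⟩
      refine ⟨om_inv hfc h1, ?_⟩
      rw [← conj]
      exact om_inv (rat_continuous hcopu) h2)
  have hCw : ∀ c, c ∈ Om f a → IsCrit f c → c ∈ Cw f a := fun c h1 h2 =>
    ⟨h2, hOJ h1, c, subset_closure ⟨0, rfl⟩, h2, h1⟩
  have hcoe : ∀ c ∈ Cw f a, ((fp (φ c) : ℂ) : OnePoint ℂ) = φ c := fun c hc => coe_fp (hfin c hc)
  -- its orbit comes back to a critical point
  have hit0 : ∀ n : ℕ, f^[n] a0' ∈ Om f a := by
    intro n
    induction n with
    | zero => exact ha0O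
    | succ n ih =>
      rw [Function.iterate_succ_apply']
      exact om_inv hfc ih
  have hsub : Om f a0' ⊆ Om f a := om_sub (om_closed f a) fun n _ => hit0 n
  obtain ⟨c', hc'O, hc'c⟩ := hNN (Om f a0') hsub (om_closed f a0') (om_ne f a0') (fun z hz => om_inv hfc hz)
  have hC1 : ∀ c ∈ Cw f a, fp (φ c) ∈ {c : ℂ | φ.symm (c : OnePoint ℂ) ∈ Cw f a} := by
    intro c hc
    show φ.symm ((fp (φ c) : ℂ) : OnePoint ℂ) ∈ Cw f a
    rw [hcoe c hc, φ.symm_apply_apply]
    exact hc
  have hom : ((fp (φ a0') : ℂ) : OnePoint ℂ) ∈ Om (Rf u) (x0 : OnePoint ℂ) := by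
    rw [hcoe a0' (hCw a0' ha0O ha0c)]
    exact ha0x
  have hret : ∃ c ∈ {c : ℂ | φ.symm (c : OnePoint ℂ) ∈ Cw f a}, (c : OnePoint ℂ) ∈
      Om (Rf u) ((fp (φ a0') : ℂ) : OnePoint ℂ) := by
    refine ⟨fp (φ c'), hC1 c' (hCw c' (hsub hc'O) hc'c), ?_⟩
    rw [hcoe a0' (hCw a0' ha0O ha0c), hcoe c' (hCw c' (hsub hc'O) hc'c)]
    exact om_conj φ.continuous conj hc'O
  -- the values are finite
  have hval : ∀ c ∈ {c : ℂ | φ.symm (c : OnePoint ℂ) ∈ Cw f a}, rat (pol u.1) (pol u.2) (c : OnePoint ℂ) ≠ OnePoint.infty := by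
    intro c hc h1
    obtain ⟨-, -, b, hb, -, hbO⟩ := hc
    have h2 : f (φ.symm (c : OnePoint ℂ)) = q := by
      apply φ.injective
      rw [← conj, hφq, φ.apply_symm_apply]
      exact h1
    have h3 : ∀ n : ℕ, f^[n + 1] (φ.symm (c : OnePoint ℂ)) = q := by
      intro n
      induction n with
      | zero => exact h2
      | succ n ih => rw [Function.iterate_succ_apply', ih, hfq]
    have h4 : closure (range fun n : ℕ => f^[n] (φ.symm (c : OnePoint ℂ))) ⊆ {φ.symm (c : OnePoint ℂ), q} := by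
      refine closure_minimal ?_ ((finite_singleton q).insert _).isClosed
      rintro _ ⟨n, rfl⟩
      rcases n with _ | n
      · exact mem_insert _ _
      · exact mem_insert_of_mem _ (h3 n)
    rcases h4 hb with h5 | h5
    · rw [h5] at hbO
      exact hqO (h2 ▸ om_inv hfc hbO)
    · rw [mem_singleton_iff] at h5
      rw [h5] at hbO
      exact hqO hbO
  rw [← hf]
  exact Pool.Agent.H91.MM.fam1 hHyp hMb conj (S := Cw f a) (fun c hc => hc) hval (fun L k hk =>
    ker hHyp hJ6 hFI hx0 hn1 hAC (hC1 a0' (hCw a0' ha0O ha0c)) hom hret L hk) hk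

end Pool.Agent.H47.MM
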