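import Pool.Agent.H47.MM.Step

/-!
# Module Chn: the pull back of a full `ψ c` down to the first pass

PROOF. Induction on `n`, for all `x`. `n = 0`: `Φ = ψ c`. `n + 1`: apply the statement for `n` to `f x` (finite: `f^[n] (f x) = ψ c u` is finite and `f ∞ = ∞`). Second alternative (time `j`): second alternative with time `j + 1`. First alternative `Φ`: `step` with `S = Φ`, `y = x`, `w0 = u`: first alternative: `S1`; second: time `0`: `f^[n + 1] (ψ b' (η w)) = f^[n] (Φ (Me e (w ^ m))) = ψ c (Me e (w ^ m))`.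
-/

set_option autoImplicit false

open Filter Topology Polynomial Metric Set MeasureTheory

namespace Pool.Agent.H47.MM

open Pool.Agent.H44.Fatou (rat)

theorem me_ball {e x : ℂ} (he : ‖e‖ < 1) (hx : ‖x‖ < 1) : ‖Me e x‖ < 1 := by
  have h1 : 1 + (starRingEnd ℂ) e * x ≠ 0 := by
    intro h0
    have h2 : (starRingEnd ℂ) e * x = -1 := by linear_combination h0
    have h3 : ‖(starRingEnd ℂ) e * x‖ = 1 := by rw [h2]; simp
    rw [norm_mul, Complex.norm_conj] at h3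
    nlinarith [norm_nonneg e, norm_nonneg x]
  unfold Me
  rw [norm_div, div_lt_one (norm_pos_iff.2 h1)]
  have h2 : ‖x + e‖ ^ 2 < ‖1 + (starRingEnd ℂ) e * x‖ ^ 2 := by
    have h3 : ‖1 + (starRingEnd ℂ) e * x‖ ^ 2 - ‖x + e‖ ^ 2 = (1 - ‖e‖ ^ 2) * (1 - ‖x‖ ^ 2) := by
      rw [← Complex.normSq_eq_norm_sq, ← Complex.normSq_eq_norm_sq, ← Complex.normSq_eq_norm_sq, ← Complex.normSq_eq_norm_sq]
      simp only [Complex.normSq_apply, Complex.add_re, Complex.add_im, Complex.mul_re, Complex.mul_im, Complex.one_re,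
        Complex.one_im, Complex.conj_re, Complex.conj_im]
      ring
    have h4 : 0 < (1 - ‖e‖ ^ 2) * (1 - ‖x‖ ^ 2) := by
      apply mul_pos <;> nlinarith [norm_nonneg e, norm_nonneg x]
    linarith
  exact lt_of_pow_lt_pow_left₀ 2 (norm_nonneg _) h2

theorem me_pow {e w : ℂ} {m : ℕ} (he : e ∈ ball (0 : ℂ) 1) (hw : w ∈ ball (0 : ℂ) 1) (hm : m ≠ 0) :
    Me e (w ^ m) ∈ ball (0 : ℂ) 1 := by
  rw [mem_ball_zero_iff] at he hw ⊢
  apply me_ball he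
  rw [norm_pow]
  exact pow_lt_one₀ (norm_nonneg _) hw hm

theorem chn {a b : Polynomial ℂ} {C : Set ℂ} (h : Hyp a b C) : ∃ (L0 : ℕ) (ε1 : ℝ), 0 < ε1 ∧ ∀ (L : ℕ) (ε k t : ℝ)
    (g ψ : ℂ → ℂ → ℂ) (l : ℂ → ℕ), Sys a b C L ε g ψ l → ε ≤ ε1 → Nice a b C g ψ k → k < 1 → 0 < t → t < 1 →
    (∀ m : ℕ, m ≤ L → m ≠ 0 → k ≤ t ^ m) → ∀ (n : ℕ) (c : ℂ), c ∈ C → ∀ x u : ℂ, u ∈ ball (0 : ℂ) 1 →
    (rat a b)^[n] (x : OnePoint ℂ) = ((ψ c u : ℂ) : OnePoint ℂ) →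
      (∃ Φ : ℂ → ℂ, Un Φ ∧ (∀ w ∈ ball (0 : ℂ) 1, (rat a b)^[n] ((Φ w : ℂ) : OnePoint ℂ) = ((ψ c w : ℂ) : OnePoint ℂ)) ∧
        Φ u = x) ∨
      ∃ j < n, ∃ b' ∈ C, ∃ (e w1 : ℂ) (m : ℕ) (η : ℂ → ℂ), e ∈ ball (0 : ℂ) 1 ∧ 2 ≤ m ∧ m ≤ L0 ∧ Un η ∧ η 0 = 0 ∧
        (∀ w ∈ ball (0 : ℂ) 1, ‖η w‖ < t ∧
          (rat a b)^[n - j] ((ψ b' (η w) : ℂ) : OnePoint ℂ) = ((ψ c (Me e (w ^ m)) : ℂ) : OnePoint ℂ)) ∧
        w1 ∈ ball (0 : ℂ) 1 ∧ Me e (w1 ^ m) = u ∧ (rat a b)^[j] (x : OnePoint ℂ) = ((ψ b' (η w1) : ℂ) : OnePoint ℂ) := by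
  obtain ⟨L0, ε1, hε1, H⟩ := step h
  refine ⟨L0, ε1, hε1, ?_⟩
  intro L ε k t g ψ l hS hε hN hk ht0 ht hkt n c hc
  have hfix : ∀ n : ℕ, (rat a b)^[n] OnePoint.infty = OnePoint.infty := by
    intro n
    induction n with
    | zero => rfl
    | succ n ih => rw [Function.iterate_succ_apply, h.inf, ih]
  induction n with
  | zero =>
    intro x u hu hx
    left
    refine ⟨ψ c, hS.pu c hc, fun w _ => rfl, ?_⟩
    have h1 : (x : OnePoint ℂ) = ((ψ c u : ℂ) : OnePoint ℂ) := hx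
    exact (OnePoint.coe_injective h1).symm
  | succ n ih =>
    intro x u hu hx
    rw [Function.iterate_succ_apply] at hx
    have hfin : rat a b (x : OnePoint ℂ) ≠ OnePoint.infty := by
      intro h0
      rw [h0, hfix n] at hx
      exact OnePoint.infty_ne_coe _ hx
    obtain ⟨x1, hx1⟩ := OnePoint.ne_infty_iff_exists.1 hfin
    rw [← hx1] at hx
    rcases ih x1 u hu hx with ⟨Φ, hΦ, hΦf, hΦu⟩ | ⟨j, hj, b', hb', e, w1, m, η, he, hm, hmL, hη, hη0, hηf, hw1, hMe, hxj⟩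
    · have hy : rat a b (x : OnePoint ℂ) = (Φ u : OnePoint ℂ) := by rw [← hx1, hΦu]
      rcases H L ε k t g ψ l hS hε hN hk ht0 ht hkt n Φ c hc hΦ hΦf x u hu hy with
        ⟨S1, hS1, hS1f, hS1u⟩ | ⟨b', hb', e, w1, m, η, he, hm, hmL, hη, hη0, hηf, hw1, hMe, hxj⟩
      · left
        refine ⟨S1, hS1, fun w hw => ?_, hS1u⟩
        rw [Function.iterate_succ_apply, hS1f w hw, hΦf w hw]
      · right
        refine ⟨0, Nat.succ_pos n, b', hb', e, w1, m, η, he, hm, hmL, hη, hη0, fun w hw => ⟨(hηf w hw).1, ?_⟩, hw1, hMe, ?_⟩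
        · rw [Nat.sub_zero, Function.iterate_succ_apply, (hηf w hw).2, hΦf _ (me_pow he hw (by omega))]
        · rw [hxj]; rfl
    · right
      refine ⟨j + 1, Nat.succ_lt_succ hj, b', hb', e, w1, m, η, he, hm, hmL, hη, hη0, fun w hw => ⟨(hηf w hw).1, ?_⟩,
        hw1, hMe, ?_⟩
      · rw [Nat.succ_sub_succ]
        exact (hηf w hw).2
      · rw [Function.iterate_succ_apply, ← hx1, hxj]

end Pool.Agent.H47.MM
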