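import Pool.Agent.H47.MM.Lift
import Pool.Agent.H56.MM.Defs

/-!
# Module Fam1: systems from univalent maps into the sphere

PROOF of `unv_ch`: at `u` with `ψ u` finite / infinite: `HolAt`, `mb_plane` (H91/ATT/Mb). PROOF of `vp_sys`. `L` = the maximum of the `L` of `lift` at the finitely many `v = f c`, `c ∈ C`. `ε' ≤ r` of `lift` for `ε`. `S = g c`, `y = c`, `w0 = 0`. First alternative: `f (S1 w) = g c w`, `S1 0 = c`: `f` is injective near `c` (`S1 '' ball 0 1` is open): `c` is critical, contradiction.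
Second: `S e = f c = S 0`, so `e = 0`, `Me 0 z = z`, `w1 ^ n = 0`, `w1 = 0`, `b' = χ 0 = χ w1 = c`. `ψ c = χ`, `l c = n`. Component: `A = ψ c '' ball 0 1` is open, connected, contains `c`, `f (A) ⊆ g c '' ball 0 1`. It is closed in the preimage of `g c '' ball 0 1` in the sphere: `ψ c (w j) → z`, `f z = g c u`, `‖u‖ < 1`: `g c ((w j) ^ n) → g c u`, so `(w j) ^ n → u`
(the inverse of `g c` is continuous), `‖w j‖ ≤ q < 1` for large `j`, a limit point `w` of the `w j` has `ψ c w = z`. So `A` is the component.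
-/

set_option autoImplicit false

open Filter Topology Polynomial Metric Set MeasureTheory

namespace Pool.Agent.H47.MM

open Pool.Agent.H44.Fatou (rat)
open Pool.Agent.H56.MM (Unv)
open Pool.Agent.H91.ATT (Mb)

theorem unv_ch {φ : OnePoint ℂ ≃ₜ OnePoint ℂ} (hφ : Mb φ) {ψ : ℂ → OnePoint ℂ} (hψ : Unv ψ)
    (hfin : ∀ u ∈ ball (0 : ℂ) 1, φ (ψ u) ≠ OnePoint.infty) :
    ∃ g : ℂ → ℂ, Un g ∧ ∀ u ∈ ball (0 : ℂ) 1, φ (ψ u) = ((g u : ℂ) : OnePoint ℂ) := by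
  sorry

theorem vp_sys {a b : Polynomial ℂ} {C : Set ℂ} (h : Hyp a b C) (hv : ∀ c ∈ C, rat a b ((c : ℂ) : OnePoint ℂ) ≠ OnePoint.infty) :
    ∃ L : ℕ, ∀ ε : ℝ, 0 < ε → ∃ ε' : ℝ, 0 < ε' ∧ ∀ g : ℂ → ℂ → ℂ,
      (∀ c ∈ C, Un (g c) ∧ rat a b ((c : ℂ) : OnePoint ℂ) = ((g c 0 : ℂ) : OnePoint ℂ) ∧
        ∀ w ∈ ball (0 : ℂ) 1, ‖g c w - g c 0‖ < ε') →
      ∃ (ψ : ℂ → ℂ → ℂ) (l : ℂ → ℕ), Sys a b C L ε g ψ l ∧ ∀ c ∈ C,
        (fun z : ℂ => (z : OnePoint ℂ)) '' (ψ c '' ball 0 1) = connectedComponentIn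
          (rat a b ⁻¹' ((fun z : ℂ => (z : OnePoint ℂ)) '' (g c '' ball 0 1))) ((c : ℂ) : OnePoint ℂ) := by
  sorry

end Pool.Agent.H47.MM
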