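import Pool.Agent.H47.MM.Defs
import Pool.Agent.H39.HO.PB

/-!
# Module Inn: a critical pull back in the `k`-part is in the `t`-part of `ψ`

PROOF. For `w` in the disc with `χ w = ψ v`, `v` in the disc: `g (v ^ n) = f (χ w) = g u`, `‖u‖ < k`, so `v ^ n = u` (`g` injective), `‖v‖ ^ n < k ≤ t ^ n`, `‖v‖ < t`. `A = {w ∈ ball 0 1 | χ w ∈ ψ '' ball 0 1}` contains `0`, is open (`ψ '' ball 0 1` is open: injective holomorphic, open mapping) and closed in the disc: `w j → w`, `χ (w j) = ψ (v j)`, `‖v j‖ ^ n ≤ k`, a limit point `v` of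
the `v j` has `‖v‖ ^ n ≤ k < 1`, so it is in the disc, `χ w = ψ v`. So `A` is the disc. `h = ψ⁻¹ ∘ χ`.
-/

set_option autoImplicit false

open Filter Topology Metric Set MeasureTheory

namespace Pool.Agent.H47.MM

theorem inn {f : OnePoint ℂ → OnePoint ℂ} {g ψ χ : ℂ → ℂ} {n : ℕ} {k t : ℝ} (hn : n ≠ 0) (hk : k < 1) (hkt : k ≤ t ^ n)
    (ht0 : 0 < t) (ht : t < 1) (hg : Un g) (hψ : Un ψ) (hχ : Un χ) (h0 : χ 0 = ψ 0)
    (hf : ∀ w ∈ ball (0 : ℂ) 1, f ((ψ w : ℂ) : OnePoint ℂ) = ((g (w ^ n) : ℂ) : OnePoint ℂ))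
    (hc : ∀ w ∈ ball (0 : ℂ) 1, ∃ u : ℂ, ‖u‖ < k ∧ f ((χ w : ℂ) : OnePoint ℂ) = ((g u : ℂ) : OnePoint ℂ)) :
    ∃ h : ℂ → ℂ, Un h ∧ h 0 = 0 ∧ ∀ w ∈ ball (0 : ℂ) 1, ‖h w‖ < t ∧ χ w = ψ (h w) := by
  have hz : (0 : ℂ) ∈ ball (0 : ℂ) 1 := mem_ball_self one_pos
  have hWo : IsOpen (ψ '' ball 0 1) :=
    Pool.Agent.H39.HO.inj_open isOpen_ball hψ.1 hψ.2 subset_rfl isOpen_ball
  -- the estimate
  have hest : ∀ w ∈ ball (0 : ℂ) 1, ∀ v ∈ ball (0 : ℂ) 1, ψ v = χ w → ‖v‖ ^ n < k := by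
    intro w hw v hv he
    obtain ⟨u, hu, hfu⟩ := hc w hw
    have h1 := hf v hv
    rw [he, hfu] at h1
    have h2 : g u = g (v ^ n) := OnePoint.coe_injective h1
    have hvn : v ^ n ∈ ball (0 : ℂ) 1 := by
      rw [mem_ball_zero_iff, norm_pow]
      exact pow_lt_one₀ (norm_nonneg _) (mem_ball_zero_iff.1 hv) hn
    have hu1 : u ∈ ball (0 : ℂ) 1 := mem_ball_zero_iff.2 (hu.trans hk)
    have h3 : u = v ^ n := hg.2 hu1 hvn h2
    rw [← norm_pow, ← h3]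
    exact hu
  set A : Set ℂ := {w | w ∈ ball (0 : ℂ) 1 ∧ χ w ∈ ψ '' ball 0 1} with hA
  have hAo : IsOpen A := hχ.1.continuousOn.isOpen_inter_preimage isOpen_ball hWo
  set Cs : Set ℂ := {v | ‖v‖ ^ n ≤ k} with hCs
  have hCb : Cs ⊆ ball 0 1 := by
    intro v hv
    rw [mem_ball_zero_iff]
    by_contra h1
    have h2 : (1 : ℝ) ≤ ‖v‖ ^ n := one_le_pow₀ (not_lt.1 h1)
    have h3 : ‖v‖ ^ n ≤ k := hv
    linarith
  have hCc : IsCompact Cs := by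
    refine (isCompact_closedBall (0 : ℂ) 1).of_isClosed_subset ?_ (hCb.trans ball_subset_closedBall)
    exact isClosed_le (continuous_norm.pow n) continuous_const
  have hCi : IsClosed (ψ '' Cs) := (hCc.image_of_continuousOn (hψ.1.continuousOn.mono hCb)).isClosed
  have hAC : χ '' A ⊆ ψ '' Cs := by
    rintro _ ⟨w, ⟨hw, v, hv, hvw⟩, rfl⟩
    exact ⟨v, (hest w hw v hv hvw).le, hvw⟩
  have hall : ball (0 : ℂ) 1 ⊆ A := by
    refine (convex_ball (0 : ℂ) 1).isPreconnected.subset_of_closure_inter_subset hAo ⟨0, hz, hz, ?_⟩ ?_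
    · exact ⟨0, hz, h0.symm⟩
    · rintro w ⟨hw, hwb⟩
      have h1 : ContinuousAt χ w := (hχ.1.differentiableAt (isOpen_ball.mem_nhds hwb)).continuousAt
      have h2 : χ w ∈ closure (χ '' A) := h1.continuousWithinAt.mem_closure_image hw
      have h3 := closure_minimal hAC hCi h2
      exact ⟨hwb, image_mono hCb h3⟩
  have hmap : MapsTo χ (ball 0 1) (ψ '' ball 0 1) := fun w hw => (hall hw).2
  have hinv : ∀ w ∈ ball (0 : ℂ) 1, Function.invFunOn ψ (ball 0 1) (χ w) ∈ ball (0 : ℂ) 1 ∧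
      ψ (Function.invFunOn ψ (ball 0 1) (χ w)) = χ w := fun w hw =>
    ⟨Function.invFunOn_mem (hmap hw), Function.invFunOn_eq (hmap hw)⟩
  refine ⟨fun w => Function.invFunOn ψ (ball 0 1) (χ w), ⟨?_, ?_⟩, ?_, fun w hw => ⟨?_, (hinv w hw).2.symm⟩⟩
  · exact (Pool.Agent.H39.HO.inj_hol isOpen_ball hψ.1 hψ.2).comp hχ.1 hmap
  · intro w hw w' hw' he
    have h1 : Function.invFunOn ψ (ball 0 1) (χ w) = Function.invFunOn ψ (ball 0 1) (χ w') := he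
    refine hχ.2 hw hw' ?_
    rw [← (hinv w hw).2, h1, (hinv w' hw').2]
  · refine hψ.2 (hinv 0 hz).1 hz ?_
    rw [(hinv 0 hz).2, h0]
  · have h1 := hest w hw _ (hinv w hw).1 (hinv w hw).2
    exact lt_of_pow_lt_pow_left₀ n ht0.le (h1.trans_le hkt)

end Pool.Agent.H47.MM
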