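import Pool.Agent.H47.MM.Defs
import Pool.Agent.H80.AJ.Distort

/-!
# Module Ivd: the pulled back field of a univalent `Φ` with `f^n (Φ w) = g (F w)`

PROOF. All `f^[i] (Φ w)`, `i ≤ n`, are finite (`f ∞ = ∞`, `f^[n] (Φ w)` is finite): `z i`. Planar `f`: `gg a b z = a z / b z`, `b (z i) ≠ 0`. By `FI` and induction on `i`: with `D i = ∏ gg' (z j)`, `j < i`: `μ (z i) * conj (D i) = μ (z 0) * D i` (multiply `FI` at `z i` by this). Chain rule, `f^[n] (Φ w) = g (F w)` near `w`: `D n * Φ' w = g' (F w) * F' w`. So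
`μ (g (F w)) * conj (g' (F w) F' w / Φ' w) = μ (Φ w) * g' (F w) F' w / Φ' w`; multiply by `conj (Φ' w) / g' (F w)`. (`Φ' w ≠ 0`, `g' ≠ 0`: injective.)
`ivl`: the consequence `IV`: with `N = pb μ g`: `pb μ Φ w * F' w = N (F w) * conj (F' w)` for `w = a', b'`, `F a' = F b'`.
-/

set_option autoImplicit false

open Filter Topology Polynomial Metric Set MeasureTheory

namespace Pool.Agent.H47.MM

open Pool.Agent.H44.Fatou (rat rat_coe rat_coe_of_ne pt)
open Pool.Agent.H47.OI (IV)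
open Pool.Agent.H91.ATT (fp fp_coe)

private theorem un_der {G : ℂ → ℂ} (h : Un G) {w : ℂ} (hw : w ∈ ball (0 : ℂ) 1) : deriv G w ≠ 0 := by
  rw [mem_ball_zero_iff] at hw
  have h1 : ball w (1 - ‖w‖) ⊆ ball 0 1 := by
    intro z hz
    rw [mem_ball, dist_eq_norm] at hz
    rw [mem_ball_zero_iff]
    calc ‖z‖ = ‖(z - w) + w‖ := by rw [sub_add_cancel]
      _ ≤ ‖z - w‖ + ‖w‖ := norm_add_le _ _
      _ < 1 := by linarith
  exact norm_pos_iff.1 (Pool.Agent.H80.AJ.deriv_ne (by linarith) (h.1.mono h1) (h.2.mono h1)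
    (mem_closedBall_self (by linarith)))

private theorem fin_den {a b : Polynomial ℂ} {z w : ℂ} (h : rat a b (z : OnePoint ℂ) = (w : OnePoint ℂ)) :
    b.eval z ≠ 0 := by
  intro h0
  rw [rat_coe] at h
  unfold pt at h
  rw [if_pos h0] at h
  exact OnePoint.infty_ne_coe _ h

private theorem r_diff {a b : Polynomial ℂ} {z : ℂ} (h : b.eval z ≠ 0) :
    DifferentiableAt ℂ (fun t : ℂ => fp (rat a b (t : OnePoint ℂ))) z := by
  have h1 : ∀ᶠ t in 𝓝 z, b.eval t ≠ 0 := b.continuous.continuousAt.eventually_ne h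
  have h2 : (fun t : ℂ => fp (rat a b (t : OnePoint ℂ))) =ᶠ[𝓝 z] (fun t => a.eval t / b.eval t) := by
    filter_upwards [h1] with t ht
    rw [rat_coe_of_ne ht]
    rfl
  exact (DifferentiableAt.div a.differentiable.differentiableAt b.differentiable.differentiableAt h).congr_of_eventuallyEq h2

theorem ivd {a b : Polynomial ℂ} (hcop : IsCoprime a b) (hd : 1 ≤ max a.natDegree b.natDegree)
    (hfi : rat a b OnePoint.infty = OnePoint.infty) {μ : ℂ → ℂ} (hμ : FI (rat a b) μ) {n : ℕ} {Φ g F : ℂ → ℂ} (hΦ : Un Φ)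
    (hg : Un g) (hF : DifferentiableOn ℂ F (ball 0 1)) (hF1 : ∀ w ∈ ball (0 : ℂ) 1, F w ∈ ball (0 : ℂ) 1)
    (h : ∀ w ∈ ball (0 : ℂ) 1, (rat a b)^[n] ((Φ w : ℂ) : OnePoint ℂ) = ((g (F w) : ℂ) : OnePoint ℂ)) :
    ∀ w ∈ ball (0 : ℂ) 1, pb μ Φ w * deriv F w = pb μ g (F w) * (starRingEnd ℂ) (deriv F w) := by
  have hfin : ∀ i, i ≤ n → ∀ w ∈ ball (0 : ℂ) 1, (rat a b)^[i] ((Φ w : ℂ) : OnePoint ℂ) =
      ((fp ((rat a b)^[i] ((Φ w : ℂ) : OnePoint ℂ)) : ℂ) : OnePoint ℂ) := by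
    intro i hi w hw
    rcases hx : (rat a b)^[i] ((Φ w : ℂ) : OnePoint ℂ) with _ | z
    · exfalso
      have h1 : (rat a b)^[n] ((Φ w : ℂ) : OnePoint ℂ) = OnePoint.infty := by
        have h2 : (rat a b)^[n - i] ((rat a b)^[i] ((Φ w : ℂ) : OnePoint ℂ)) = (rat a b)^[n] ((Φ w : ℂ) : OnePoint ℂ) := by
          rw [← Function.iterate_add_apply, Nat.sub_add_cancel hi]
        rw [← h2, hx]
        exact Function.iterate_fixed hfi _
      rw [h w hw] at h1
      exact OnePoint.coe_ne_infty _ h1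
    · rfl
  have key : ∀ i, i ≤ n → DifferentiableOn ℂ (fun w => fp ((rat a b)^[i] ((Φ w : ℂ) : OnePoint ℂ))) (ball 0 1) ∧
      ∀ w ∈ ball (0 : ℂ) 1, ∃ D : ℂ,
        μ (fp ((rat a b)^[i] ((Φ w : ℂ) : OnePoint ℂ))) * (starRingEnd ℂ) D = μ (Φ w) * D ∧
        deriv (fun w => fp ((rat a b)^[i] ((Φ w : ℂ) : OnePoint ℂ))) w = D * deriv Φ w := by
    intro i
    induction i with
    | zero =>
      intro _
      have e0 : (fun w => fp ((rat a b)^[0] ((Φ w : ℂ) : OnePoint ℂ))) = Φ := rfl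
      refine ⟨by rw [e0]; exact hΦ.1, ?_⟩
      intro w hw
      refine ⟨1, ?_, ?_⟩
      · rw [map_one]
        rfl
      · rw [e0, one_mul]
    | succ i ih =>
      intro hi
      obtain ⟨ih1, ih2⟩ := ih (by omega)
      set G : ℂ → ℂ := fun w => fp ((rat a b)^[i] ((Φ w : ℂ) : OnePoint ℂ)) with hG
      set r : ℂ → ℂ := fun t : ℂ => fp (rat a b (t : OnePoint ℂ)) with hr
      have hstep : ∀ w ∈ ball (0 : ℂ) 1, rat a b ((G w : ℂ) : OnePoint ℂ) =
          ((fp ((rat a b)^[i + 1] ((Φ w : ℂ) : OnePoint ℂ)) : ℂ) : OnePoint ℂ) := by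
        intro w hw
        rw [← hfin (i + 1) hi w hw, Function.iterate_succ_apply', ← hfin i (by omega) w hw]
      have heq : ∀ w ∈ ball (0 : ℂ) 1, fp ((rat a b)^[i + 1] ((Φ w : ℂ) : OnePoint ℂ)) = r (G w) := by
        intro w hw
        show _ = fp (rat a b ((G w : ℂ) : OnePoint ℂ))
        rw [hstep w hw, fp_coe]
      have hrd : ∀ w ∈ ball (0 : ℂ) 1, DifferentiableAt ℂ r (G w) := by
        intro w hw
        exact r_diff (fin_den (hstep w hw))
      have hGd : ∀ w ∈ ball (0 : ℂ) 1, DifferentiableAt ℂ G w := by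
        intro w hw
        exact (ih1 w hw).differentiableAt (isOpen_ball.mem_nhds hw)
      refine ⟨?_, ?_⟩
      · intro w hw
        have h1 : DifferentiableWithinAt ℂ (fun w => r (G w)) (ball 0 1) w :=
          ((hrd w hw).comp w (hGd w hw)).differentiableWithinAt
        exact h1.congr heq (heq w hw)
      · intro w hw
        obtain ⟨D, hD1, hD2⟩ := ih2 w hw
        refine ⟨deriv r (G w) * D, ?_, ?_⟩
        · have h1 := hμ (G w) (fp ((rat a b)^[i + 1] ((Φ w : ℂ) : OnePoint ℂ))) (hstep w hw)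
          rw [map_mul]
          calc μ (fp ((rat a b)^[i + 1] ((Φ w : ℂ) : OnePoint ℂ))) *
                ((starRingEnd ℂ) (deriv r (G w)) * (starRingEnd ℂ) D)
              = (μ (fp ((rat a b)^[i + 1] ((Φ w : ℂ) : OnePoint ℂ))) * (starRingEnd ℂ) (deriv r (G w))) *
                (starRingEnd ℂ) D := by ring
            _ = (μ (G w) * deriv r (G w)) * (starRingEnd ℂ) D := by rw [h1]
            _ = deriv r (G w) * (μ (G w) * (starRingEnd ℂ) D) := by ring
            _ = deriv r (G w) * (μ (Φ w) * D) := by rw [hD1]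
            _ = μ (Φ w) * (deriv r (G w) * D) := by ring
        · have h2 : (fun w => fp ((rat a b)^[i + 1] ((Φ w : ℂ) : OnePoint ℂ))) =ᶠ[𝓝 w] (fun w => r (G w)) := by
            filter_upwards [isOpen_ball.mem_nhds hw] with t ht
            exact heq t ht
          have h3 : deriv (fun w => r (G w)) w = deriv r (G w) * deriv G w :=
            deriv_comp w (hrd w hw) (hGd w hw)
          rw [h2.deriv_eq, h3, hD2]
          ring
  intro w hw
  obtain ⟨-, h2⟩ := key n le_rfl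
  obtain ⟨D, hD1, hD2⟩ := h2 w hw
  have heq : ∀ t ∈ ball (0 : ℂ) 1, fp ((rat a b)^[n] ((Φ t : ℂ) : OnePoint ℂ)) = g (F t) := by
    intro t ht
    rw [h t ht, fp_coe]
  have h3 : (fun w => fp ((rat a b)^[n] ((Φ w : ℂ) : OnePoint ℂ))) =ᶠ[𝓝 w] (fun w => g (F w)) := by
    filter_upwards [isOpen_ball.mem_nhds hw] with t ht
    exact heq t ht
  have hgd : DifferentiableAt ℂ g (F w) := (hg.1 (F w) (hF1 w hw)).differentiableAt (isOpen_ball.mem_nhds (hF1 w hw))
  have hFd : DifferentiableAt ℂ F w := (hF w hw).differentiableAt (isOpen_ball.mem_nhds hw)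
  have h4 : deriv (fun w => g (F w)) w = deriv g (F w) * deriv F w := deriv_comp w hgd hFd
  have h5 : deriv g (F w) * deriv F w = D * deriv Φ w := by
    rw [← h4, ← h3.deriv_eq, hD2]
  have h6 : (starRingEnd ℂ) (deriv g (F w)) * (starRingEnd ℂ) (deriv F w) =
      (starRingEnd ℂ) D * (starRingEnd ℂ) (deriv Φ w) := by
    rw [← map_mul, h5, map_mul]
  rw [heq w hw] at hD1
  have hP : deriv Φ w ≠ 0 := un_der hΦ hw
  have hQ : deriv g (F w) ≠ 0 := un_der hg (hF1 w hw)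
  unfold pb
  rw [div_mul_eq_mul_div, div_mul_eq_mul_div, div_eq_div_iff hP hQ]
  calc μ (Φ w) * (starRingEnd ℂ) (deriv Φ w) * deriv F w * deriv g (F w)
      = μ (Φ w) * (starRingEnd ℂ) (deriv Φ w) * (deriv g (F w) * deriv F w) := by ring
    _ = (μ (Φ w) * D) * ((starRingEnd ℂ) (deriv Φ w) * deriv Φ w) := by rw [h5]; ring
    _ = (μ (g (F w)) * (starRingEnd ℂ) D) * ((starRingEnd ℂ) (deriv Φ w) * deriv Φ w) := by rw [hD1]
    _ = μ (g (F w)) * ((starRingEnd ℂ) D * (starRingEnd ℂ) (deriv Φ w)) * deriv Φ w := by ring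
    _ = μ (g (F w)) * ((starRingEnd ℂ) (deriv g (F w)) * (starRingEnd ℂ) (deriv F w)) * deriv Φ w := by rw [h6]
    _ = μ (g (F w)) * (starRingEnd ℂ) (deriv g (F w)) * (starRingEnd ℂ) (deriv F w) * deriv Φ w := by ring

theorem ivl {a b : Polynomial ℂ} (hcop : IsCoprime a b) (hd : 1 ≤ max a.natDegree b.natDegree)
    (hfi : rat a b OnePoint.infty = OnePoint.infty) {μ : ℂ → ℂ} (hμ : FI (rat a b) μ) {n : ℕ} {Φ g F : ℂ → ℂ} (hΦ : Un Φ)
    (hg : Un g) (hF : DifferentiableOn ℂ F (ball 0 1)) (hF1 : ∀ w ∈ ball (0 : ℂ) 1, F w ∈ ball (0 : ℂ) 1)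
    (h : ∀ w ∈ ball (0 : ℂ) 1, (rat a b)^[n] ((Φ w : ℂ) : OnePoint ℂ) = ((g (F w) : ℂ) : OnePoint ℂ)) :
    IV (ball 0 1) F (pb μ Φ) := by
  refine ⟨∅, measure_empty, ?_⟩
  intro u hu _ v hv _ huv _ _
  have h1 := ivd hcop hd hfi hμ hΦ hg hF hF1 h u hu
  have h2 := ivd hcop hd hfi hμ hΦ hg hF hF1 h v hv
  rw [h1, h2, huv]
  ring

end Pool.Agent.H47.MM
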