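import Pool.Agent.H47.MM.Defs

/-!
# Module Sml: pull backs of small sets through a point of the Julia set are small

PROOF. Let `η0 > 0` be small (depending on `s`, `ε`), `η > 0` such that `chord x z < η` implies `z` finite and `‖z - x‖ < η0`, `δ` from `J6` for `η`, `y = x`. If `‖deriv Φ 0‖ ≥ ε`: by the Koebe distortion theorem (library: H44/DN/KOE) `‖deriv Φ w0‖ ≥ c(s) ε`, by the one quarter theorem (library: H80/AJ/Distort or H44/DN/KOE) on `ball w0 (1 - s)`: `ball x (c(s) ε (1 - s) / 4) ⊆ Φ '' ball 0 1`. With `η0` = this radius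
`f^[n]` maps `{z | chord x z < η}` into `{z | chord p z < δ}`: contradiction to `J6`.
-/

set_option autoImplicit false

open Filter Topology Polynomial Metric Set MeasureTheory

namespace Pool.Agent.H47.MM

open Pool.Agent.H44.RC (JS J6)
open Pool.Agent.H35.EX (chord)

private theorem chord_near (x : ℂ) {η0 : ℝ} (h0 : 0 < η0) : ∃ η : ℝ, 0 < η ∧ ∀ z : OnePoint ℂ,
    chord (x : OnePoint ℂ) z < η → ∃ u : ℂ, (u : OnePoint ℂ) = z ∧ ‖u - x‖ < η0 := by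
  obtain ⟨A, hA⟩ : ∃ A : ℝ, A = √(1 + ‖x‖ ^ 2) := ⟨_, rfl⟩
  have hA0 : 0 < A := by rw [hA]; exact Real.sqrt_pos.2 (by positivity)
  obtain ⟨B, hB⟩ : ∃ B : ℝ, B = 1 + ‖x‖ := ⟨_, rfl⟩
  have hB0 : 0 < B := by rw [hB]; positivity
  refine ⟨min (1 / (2 * A)) (η0 / (2 * A * B)), lt_min (by positivity) (by positivity), ?_⟩
  intro z hz
  obtain ⟨h1, h2⟩ := lt_min_iff.1 hz
  induction z using OnePoint.rec with
  | infty =>
    exfalso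
    have h3 : chord (x : OnePoint ℂ) OnePoint.infty = 1 / √(1 + ‖x‖ ^ 2) := rfl
    rw [h3, ← hA] at h1
    have h4 : 1 / (2 * A) ≤ 1 / A := by
      apply one_div_le_one_div_of_le hA0
      linarith
    linarith
  | coe u =>
    refine ⟨u, rfl, ?_⟩
    have h3 : chord (x : OnePoint ℂ) (u : OnePoint ℂ) = ‖x - u‖ / (√(1 + ‖x‖ ^ 2) * √(1 + ‖u‖ ^ 2)) := rfl
    rw [h3, ← hA] at h1 h2
    have hS0 : 0 < √(1 + ‖u‖ ^ 2) := Real.sqrt_pos.2 (by positivity)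
    have hS : √(1 + ‖u‖ ^ 2) ≤ B + ‖u - x‖ := by
      have h5 : ‖u‖ ≤ ‖x‖ + ‖u - x‖ := by
        calc ‖u‖ = ‖x + (u - x)‖ := by rw [add_sub_cancel]
          _ ≤ ‖x‖ + ‖u - x‖ := norm_add_le _ _
      have h6 : √(1 + ‖u‖ ^ 2) ≤ 1 + ‖u‖ := by
        rw [Real.sqrt_le_left (by positivity)]
        nlinarith [norm_nonneg u]
      rw [hB]
      linarith
    rw [norm_sub_rev x u, div_lt_iff₀ (by positivity)] at h1 h2
    have h7 : 1 / (2 * A) * (A * √(1 + ‖u‖ ^ 2)) = √(1 + ‖u‖ ^ 2) / 2 := by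
      field_simp
    have h8 : η0 / (2 * A * B) * (A * √(1 + ‖u‖ ^ 2)) = η0 * √(1 + ‖u‖ ^ 2) / (2 * B) := by
      field_simp
    rw [h7] at h1
    rw [h8, lt_div_iff₀ (by positivity)] at h2
    have h9 : √(1 + ‖u‖ ^ 2) ≤ 2 * B := by linarith
    have h10 : η0 * √(1 + ‖u‖ ^ 2) ≤ η0 * (2 * B) := mul_le_mul_of_nonneg_left h9 h0.le
    have h11 : ‖u - x‖ * (2 * B) < η0 * (2 * B) := lt_of_lt_of_le h2 h10
    exact lt_of_mul_lt_mul_right h11 (by positivity)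

theorem sml {f : OnePoint ℂ → OnePoint ℂ} (h6 : J6 f) {x : ℂ} (hx : (x : OnePoint ℂ) ∈ JS f) {s : ℝ} (hs : s < 1) {ε : ℝ}
    (hε : 0 < ε) : ∃ δ : ℝ, 0 < δ ∧ ∀ Φ : ℂ → ℂ, Un Φ → ∀ (n : ℕ) (p : OnePoint ℂ),
      (∀ w ∈ ball (0 : ℂ) 1, chord p (f^[n] ((Φ w : ℂ) : OnePoint ℂ)) < δ) → ∀ w0 : ℂ, ‖w0‖ ≤ s → Φ w0 = x →
        ‖deriv Φ 0‖ < ε := by
  obtain ⟨C, N, hC, hK⟩ := Pool.Agent.H44.DN.koe
  obtain ⟨ρ, hρ⟩ : ∃ ρ : ℝ, ρ = max s 0 := ⟨_, rfl⟩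
  have hρ0 : 0 ≤ ρ := by rw [hρ]; exact le_max_right _ _
  have hρs : s ≤ ρ := by rw [hρ]; exact le_max_left _ _
  have hρ1 : ρ < 1 := by rw [hρ]; exact max_lt hs one_pos
  have hq : 0 < 1 - ρ := by linarith
  have hC0 : 0 < C := by linarith
  obtain ⟨m, hm⟩ : ∃ m : ℝ, m = ε * (1 - ρ) ^ N / C := ⟨_, rfl⟩
  have hm0 : 0 < m := by rw [hm]; positivity
  obtain ⟨η, hη, hnear⟩ := chord_near x (η0 := (1 - ρ) * m / 16) (by positivity)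
  obtain ⟨δ, hδ, hJ⟩ := h6 η hη
  refine ⟨δ, hδ, ?_⟩
  intro Φ hΦ n p hp w0 hw0 hΦx
  by_contra hcon
  push Not at hcon
  apply hJ (x : OnePoint ℂ) hx n p
  intro z hz
  obtain ⟨u, rfl, hu⟩ := hnear z hz
  have hw0ρ : w0 ∈ closedBall (0 : ℂ) ρ := by
    rw [mem_closedBall, dist_zero_right]
    exact hw0.trans hρs
  obtain ⟨_, h2, _, _⟩ := hK Φ 0 1 one_pos hΦ.1 hΦ.2 ρ hρ0 hρ1 w0 hw0ρ
  rw [div_one] at h2
  have h3 : m ≤ ‖deriv Φ w0‖ := by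
    rw [hm, div_le_iff₀ hC0]
    calc ε * (1 - ρ) ^ N ≤ ‖deriv Φ 0‖ * (1 - ρ) ^ N := mul_le_mul_of_nonneg_right hcon (by positivity)
      _ ≤ C * ‖deriv Φ w0‖ := h2
      _ = ‖deriv Φ w0‖ * C := mul_comm _ _
  have hsub : ball w0 (1 - ρ) ⊆ ball (0 : ℂ) 1 := by
    apply ball_subset_ball'
    rw [dist_zero_right]
    have := hw0.trans hρs
    linarith
  have h4 := Pool.Agent.H80.AJ.univ_cover hq (hΦ.1.mono hsub) (hΦ.2.mono hsub)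
  have h5 : u ∈ ball (Φ w0) ((1 - ρ) * ‖deriv Φ w0‖ / 16) := by
    rw [hΦx, mem_ball, dist_eq_norm]
    refine lt_of_lt_of_le hu ?_
    have h7 : (1 - ρ) * m ≤ (1 - ρ) * ‖deriv Φ w0‖ := mul_le_mul_of_nonneg_left h3 hq.le
    linarith
  obtain ⟨w, hw, hwu⟩ := h4 h5
  rw [← hwu]
  exact hp w (hsub hw)

end Pool.Agent.H47.MM
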