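import Pool.Agent.H47.MM.Tpl
import Pool.Agent.H47.MM.Sml
import Pool.Agent.H47.MM.Ivd
import Pool.Agent.H81.MM.Two

/-!
# Module Two: the two pass lemma

PROOF. Otherwise there are sequences `g j`, `n j`, `p j`, `q j`, `e j`, `Φ j`, `w j` for `ε = 1 / (j + 1)`. The finitely many pairs `(p, q)`: pass to a subsequence with `p`, `q` constant. `chord (g j 0) (g j w) ≤ ‖g j w - g j 0‖ < 1 / (j + 1)` (`chord` of finite points is at most the distance), `‖FF e p q w‖ < 1`: `sml`: `deriv (Φ j) 0 → 0`. `ivl` with `F = FF (e j) p q`. `tpl` with `c = μ x`.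
-/

set_option autoImplicit false

open Filter Topology Polynomial Metric Set MeasureTheory

namespace Pool.Agent.H47.MM

open Pool.Agent.H44.Fatou (rat)
open Pool.Agent.H44.RC (JS J6)
open Pool.Agent.H47.OI (AC)
open Pool.Agent.H35.EX (chord)

private theorem FF_lt {e : ℂ} (he : ‖e‖ < 1) {p q : ℕ} (hp : 2 ≤ p) (hq : 2 ≤ q) {w : ℂ} (hw : ‖w‖ < 1) :
    ‖FF e p q w‖ < 1 := by
  have h1 : ‖w ^ p‖ < 1 := Pool.H81.MM.pow_lt (by omega) hw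
  have h2 : ‖Pool.H81.MM.mob e (w ^ p)‖ < 1 := Pool.H81.MM.mob_lt he h1
  exact Pool.H81.MM.pow_lt (by omega) h2

private theorem FF_diff {e : ℂ} (he : ‖e‖ < 1) {p q : ℕ} (hp : 2 ≤ p) :
    DifferentiableOn ℂ (FF e p q) (ball 0 1) := by
  intro w hw
  have hw1 : ‖w‖ < 1 := mem_ball_zero_iff.1 hw
  exact (Pool.H81.MM.pass_hasDerivAt (lc := q) he (by omega : p ≠ 0) hw1).differentiableAt.differentiableWithinAt

private theorem chord_le (x u : ℂ) : chord (x : OnePoint ℂ) (u : OnePoint ℂ) ≤ ‖u - x‖ := by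
  have h3 : chord (x : OnePoint ℂ) (u : OnePoint ℂ) = ‖x - u‖ / (√(1 + ‖x‖ ^ 2) * √(1 + ‖u‖ ^ 2)) := rfl
  rw [h3, norm_sub_rev]
  refine div_le_self (norm_nonneg _) ?_
  have h1 : (1 : ℝ) ≤ √(1 + ‖x‖ ^ 2) := Real.one_le_sqrt.2 (by nlinarith [sq_nonneg ‖x‖])
  have h2 : (1 : ℝ) ≤ √(1 + ‖u‖ ^ 2) := Real.one_le_sqrt.2 (by nlinarith [sq_nonneg ‖u‖])
  nlinarith

theorem no_two {a b : Polynomial ℂ} (hcop : IsCoprime a b) (hd : 1 ≤ max a.natDegree b.natDegree)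
    (hfi : rat a b OnePoint.infty = OnePoint.infty) (h6 : J6 (rat a b)) {μ : ℂ → ℂ} (hμ : FI (rat a b) μ) {x : ℂ}
    (hx : (x : OnePoint ℂ) ∈ JS (rat a b)) (h1 : ‖μ x‖ = 1) (hac : AC μ x (μ x)) (L : ℕ) {s t : ℝ} (hs : s < 1)
    (ht : t < 1) : ∃ ε : ℝ, 0 < ε ∧ ∀ g : ℂ → ℂ, Un g → (∀ w ∈ ball (0 : ℂ) 1, ‖g w - g 0‖ < ε) →
      NoTwo (rat a b) x L s t g := by
  by_contra hcon
  push Not at hcon
  have hseq : ∀ j : ℕ, ∃ g : ℂ → ℂ, Un g ∧ (∀ w ∈ ball (0 : ℂ) 1, ‖g w - g 0‖ < 1 / ((j : ℝ) + 1)) ∧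
      ∃ n p q : ℕ, 2 ≤ p ∧ p ≤ L ∧ 2 ≤ q ∧ q ≤ L ∧ ∃ e : ℂ, ‖e‖ ≤ t ∧ ∃ Φ : ℂ → ℂ, Un Φ ∧
        (∀ w ∈ ball (0 : ℂ) 1, (rat a b)^[n] ((Φ w : ℂ) : OnePoint ℂ) = ((g (FF e p q w) : ℂ) : OnePoint ℂ)) ∧
        ∃ w0 : ℂ, ‖w0‖ ≤ s ∧ Φ w0 = x := by
    intro j
    obtain ⟨g, hg, hg1, hg2⟩ := hcon (1 / ((j : ℝ) + 1)) Nat.one_div_pos_of_nat
    unfold NoTwo at hg2
    push Not at hg2
    obtain ⟨n, p, q, hp, hpL, hq, hqL, e, he, Φ, hΦ, hf, w0, hw0, hx0⟩ := hg2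
    exact ⟨g, hg, hg1, n, p, q, hp, hpL, hq, hqL, e, he, Φ, hΦ, hf, w0, hw0, hx0⟩
  choose g hg hg1 n p q hp hpL hq hqL e he Φ hΦ hf w hw hwx using hseq
  -- constant `(p, q)` along a subsequence
  obtain ⟨P, Q, hPQ⟩ : ∃ P Q : ℕ, ∃ᶠ j in atTop, p j = P ∧ q j = Q := by
    by_contra hno
    push Not at hno
    have hev : ∀ᶠ j in atTop, ∀ P ∈ Finset.range (L + 1), ∀ Q ∈ Finset.range (L + 1), ¬ (p j = P ∧ q j = Q) := by
      rw [Finset.eventually_all]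
      intro P _
      rw [Finset.eventually_all]
      intro Q _
      filter_upwards [hno P Q] with j hj hjj
      exact hj hjj.1 hjj.2
    obtain ⟨j, hj⟩ := hev.exists
    exact hj (p j) (Finset.mem_range.2 (by have := hpL j; omega)) (q j)
      (Finset.mem_range.2 (by have := hqL j; omega)) ⟨rfl, rfl⟩
  obtain ⟨σ, hσ, hσ1⟩ := Filter.extraction_of_frequently_atTop hPQ
  have hP : 2 ≤ P := (hσ1 0).1 ▸ hp (σ 0)
  have hQ : 2 ≤ Q := (hσ1 0).2 ▸ hq (σ 0)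
  have he1 : ∀ j, ‖e j‖ < 1 := fun j => (he j).trans_lt ht
  have hf' : ∀ j, ∀ z ∈ ball (0 : ℂ) 1, (rat a b)^[n (σ j)] ((Φ (σ j) z : ℂ) : OnePoint ℂ) =
      ((g (σ j) (FF (e (σ j)) P Q z) : ℂ) : OnePoint ℂ) := by
    intro j z hz
    have h := hf (σ j) z hz
    rw [(hσ1 j).1, (hσ1 j).2] at h
    exact h
  refine tpl (Φ := fun j => Φ (σ j)) (w := fun j => w (σ j)) (e := fun j => e (σ j)) (p := P) (q := Q) h1 hac
    (fun j => hΦ (σ j)) hs ht (fun j => hw (σ j)) (fun j => he (σ j)) (fun j => hwx (σ j)) ?_ hP hQ ?_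
  · rw [Metric.tendsto_atTop]
    intro ε hε
    obtain ⟨δ, hδ, hδ1⟩ := sml h6 hx hs hε
    obtain ⟨N, hN⟩ := exists_nat_one_div_lt hδ
    refine ⟨N, fun j hj => ?_⟩
    rw [dist_zero_right]
    refine hδ1 (Φ (σ j)) (hΦ (σ j)) (n (σ j)) ((g (σ j) 0 : ℂ) : OnePoint ℂ) ?_ (w (σ j)) (hw (σ j)) (hwx (σ j))
    intro z hz
    rw [hf' j z hz]
    have hz1 : ‖z‖ < 1 := mem_ball_zero_iff.1 hz
    have h2 := hg1 (σ j) _ (mem_ball_zero_iff.2 (FF_lt (he1 (σ j)) hP hQ hz1))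
    refine (chord_le _ _).trans_lt (h2.trans ?_)
    refine lt_of_le_of_lt ?_ hN
    refine one_div_le_one_div_of_le (by positivity) ?_
    have h3 : N ≤ σ j := hj.trans (hσ.id_le j)
    have h4 : (N : ℝ) ≤ (σ j : ℝ) := by exact_mod_cast h3
    linarith
  · intro j
    exact ivl hcop hd hfi hμ (hΦ (σ j)) (hg (σ j)) (FF_diff (he1 (σ j)) hP)
      (fun z hz => mem_ball_zero_iff.2 (FF_lt (he1 (σ j)) hP hQ (mem_ball_zero_iff.1 hz))) (hf' j)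

end Pool.Agent.H47.MM
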