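import Pool.Agent.H47.MM.Vis
import Pool.Agent.H47.MM.Two
import Pool.Agent.H43.UB.UH
import Pool.Agent.H81.MM.Mob

/-!
# Module Ker: the kernel

PROOF. Let `k < 1`; `L = max L0 L` (the `L0` of `step`, `chn`, `vis`); `t < 1` with `k ≤ t ^ m` for `m ≤ L`, `t < t' < 1`, `s < 1` for `vis` (`‖w‖ ^ m = ‖Me (- e) u‖ ≤ (t + t') / (1 + t t')`), `t ≤ s`; `ε` from `no_two` (for `x`, `L`, `s`, `t'`), `step`, `chn`, `vis`, and less than the distances of different points of `C`. Suppose `Nice`. Some `f^[m] a0`, `m ≥ 1`, is in `ψ c '' ball 0 t` (an open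
neighbourhood of `c`; `hret`): take `m` minimal (over all `c ∈ C`), `f^[m] a0 = ψ c e`, `‖e‖ < t`. `chn` with `x = f a0` (finite), `n = m - 1`, `u = e`: the second alternative gives `f^[j + 1] a0 = ψ b' (η w1)`, `‖η w1‖ < t`, `j + 1 < m`: contradiction. So `Φ`, `f^[m - 1] (Φ w) = ψ c w`, `Φ e = f a0`. `step` with `S = Φ`, `y = a0`, `w0 = e`: the first alternative
is impossible: `f (S1 w) = Φ w`, `S1 e = a0`, so `f` is injective near `a0` (`S1 '' ball 0 1` is open), but `a0` is critical. Second: `ψ b' (η w1) = a0`, so `‖a0 - b'‖ < ε`, `b' = a0`, `η w1 = 0`, `w1 = 0`, `e' = Me e' 0 = e`, so `f (ψ a0 (η w)) = Φ (Me e (w ^ p))`. The set `ψ a0 '' (η '' ball 0 t)` is an open neighbourhood of `a0`: `f^[n] x = ψ a0 (η w2)`, `‖w2‖ < t`, for some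
`n` (`hom`). `vis`: `Φ1` on `ball 0 t'`, `f^[n] (Φ1 z) = ψ a0 z`, `Φ1 (η w2) = x`. `Ψ = Φ1 ∘ η`: `f^[n + m + 1] (Ψ w) = f^[m + 1] (ψ a0 (η w)) = f^[m] (Φ (Me e (w ^ p))) = f (ψ c (Me e (w ^ p))) = g c (FF e p (l c) w)`, `Ψ w2 = x`: contradiction to `NoTwo`.
-/

set_option autoImplicit false

open Filter Topology Polynomial Metric Set MeasureTheory

namespace Pool.Agent.H47.MM

open Pool.Agent.H44.Fatou (rat)
open Pool.Agent.H44.RC (JS J6 Om)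
open Pool.Agent.H47.OI (AC)
open Pool.Agent.H32.BT (IsCrit)
open Pool.Agent.H43.UB (uh_open uh_der)

private theorem pw (L : ℕ) {q t0 : ℝ} (hq : q < 1) (ht0 : t0 < 1) : ∃ t, t0 < t ∧ t < 1 ∧ q < t ^ L := by
  have h1 : Tendsto (fun t : ℝ => t ^ L) (𝓝[<] 1) (𝓝 1) := by
    have : Tendsto (fun t : ℝ => t ^ L) (𝓝 1) (𝓝 ((1 : ℝ) ^ L)) := (continuous_pow L).tendsto 1
    rw [one_pow] at this
    exact this.mono_left nhdsWithin_le_nhds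
  have h2 : ∀ᶠ t : ℝ in 𝓝[<] 1, q < t ^ L := h1.eventually (lt_mem_nhds hq)
  have h3 : ∀ᶠ t : ℝ in 𝓝[<] 1, t0 < t := (lt_mem_nhds ht0).filter_mono nhdsWithin_le_nhds
  have h4 : ∀ᶠ t : ℝ in 𝓝[<] 1, t < 1 := self_mem_nhdsWithin
  obtain ⟨t, e1, e2, e3⟩ := (h2.and (h3.and h4)).exists
  exact ⟨t, e2, e3, e1⟩

private theorem idn (u e : ℂ) : ‖u - e‖ ^ 2 = ‖1 - u * (starRingEnd ℂ) e‖ ^ 2 - (1 - ‖u‖ ^ 2) * (1 - ‖e‖ ^ 2) := by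
  rw [← Complex.normSq_eq_norm_sq, ← Complex.normSq_eq_norm_sq, ← Complex.normSq_eq_norm_sq, ← Complex.normSq_eq_norm_sq]
  simp only [Complex.normSq_apply, Complex.sub_re, Complex.sub_im, Complex.mul_re, Complex.mul_im, Complex.conj_re, Complex.conj_im,
    Complex.one_re, Complex.one_im]
  ring

private theorem me_bd {e u z : ℂ} {t t' : ℝ} (ht : 0 < t) (ht1 : t < 1) (ht' : t' < 1) (he : ‖e‖ ≤ t') (hu : ‖u‖ < t)
    (hz : ‖z‖ < 1) (h : Me e z = u) : ‖z‖ ^ 2 ≤ 1 - (1 - t ^ 2) * (1 - t' ^ 2) / 4 := by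
  have he1 : ‖e‖ < 1 := he.trans_lt ht'
  have hu1 : ‖u‖ < 1 := hu.trans ht1
  have hd : 1 + (starRingEnd ℂ) e * z ≠ 0 := by
    intro h0
    have h2 : ‖(starRingEnd ℂ) e * z‖ = 1 := by
      have : (starRingEnd ℂ) e * z = -1 := by linear_combination h0
      rw [this, norm_neg, norm_one]
    rw [norm_mul, RCLike.norm_conj] at h2
    nlinarith [norm_nonneg e, norm_nonneg z]
  have h1 : z * (1 - u * (starRingEnd ℂ) e) = u - e := by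
    unfold Me at h
    rw [div_eq_iff hd] at h
    linear_combination h
  have hD0 : 0 < ‖1 - u * (starRingEnd ℂ) e‖ := by
    rw [norm_pos_iff]
    intro h0
    have h2 : ‖u * (starRingEnd ℂ) e‖ = 1 := by
      have : u * (starRingEnd ℂ) e = 1 := by linear_combination -h0
      rw [this, norm_one]
    rw [norm_mul, RCLike.norm_conj] at h2
    nlinarith [norm_nonneg e, norm_nonneg u]
  have hD2 : ‖1 - u * (starRingEnd ℂ) e‖ ≤ 2 := by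
    refine (norm_sub_le _ _).trans ?_
    rw [norm_one, norm_mul, RCLike.norm_conj]
    nlinarith [norm_nonneg e, norm_nonneg u]
  have h3 : ‖z‖ ^ 2 * ‖1 - u * (starRingEnd ℂ) e‖ ^ 2 =
      ‖1 - u * (starRingEnd ℂ) e‖ ^ 2 - (1 - ‖u‖ ^ 2) * (1 - ‖e‖ ^ 2) := by
    rw [← idn, ← h1, norm_mul, mul_pow]
  have h4 : (1 - t ^ 2) * (1 - t' ^ 2) ≤ (1 - ‖u‖ ^ 2) * (1 - ‖e‖ ^ 2) := by
    have a1 : ‖u‖ ^ 2 ≤ t ^ 2 := pow_le_pow_left₀ (norm_nonneg u) hu.le 2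
    have a2 : ‖e‖ ^ 2 ≤ t' ^ 2 := pow_le_pow_left₀ (norm_nonneg e) he 2
    have a3 : t ^ 2 < 1 := by nlinarith
    have a4 : t' ^ 2 < 1 := by
      have : 0 ≤ t' := (norm_nonneg e).trans he
      nlinarith
    have a5 : 0 ≤ 1 - t' ^ 2 := by linarith
    have a6 : 0 ≤ 1 - ‖u‖ ^ 2 := by nlinarith [norm_nonneg u]
    calc (1 - t ^ 2) * (1 - t' ^ 2) ≤ (1 - ‖u‖ ^ 2) * (1 - t' ^ 2) := mul_le_mul_of_nonneg_right (by linarith) a5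
      _ ≤ (1 - ‖u‖ ^ 2) * (1 - ‖e‖ ^ 2) := mul_le_mul_of_nonneg_left (by linarith) a6
  have h5 : (1 - t ^ 2) * (1 - t' ^ 2) / 4 * ‖1 - u * (starRingEnd ℂ) e‖ ^ 2 ≤ (1 - ‖u‖ ^ 2) * (1 - ‖e‖ ^ 2) := by
    have a1 : ‖1 - u * (starRingEnd ℂ) e‖ ^ 2 ≤ 4 := by nlinarith
    have a2 : 0 ≤ (1 - ‖u‖ ^ 2) * (1 - ‖e‖ ^ 2) := by
      apply mul_nonneg <;> nlinarith [norm_nonneg e, norm_nonneg u]
    have a3 : 0 ≤ (1 - t ^ 2) * (1 - t' ^ 2) := by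
      have : 0 ≤ t' := (norm_nonneg e).trans he
      apply mul_nonneg <;> nlinarith
    have a4 := mul_le_mul_of_nonneg_left a1 a3
    nlinarith
  have h6 : 0 < ‖1 - u * (starRingEnd ℂ) e‖ ^ 2 := by positivity
  by_contra hcon
  push Not at hcon
  have h7 := mul_lt_mul_of_pos_right hcon h6
  rw [h3, sub_mul, one_mul] at h7
  linarith

/-- the parameters -/
theorem par (L : ℕ) {k : ℝ} (hk : k < 1) : ∃ k' t t' s : ℝ, k ≤ k' ∧ k' < 1 ∧ 0 < t ∧ t < t' ∧ t' < 1 ∧ s < 1 ∧ t ≤ s ∧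
    (∀ m : ℕ, m ≤ L → m ≠ 0 → k' ≤ t ^ m) ∧
    ∀ (e u w : ℂ) (m : ℕ), ‖e‖ ≤ t' → ‖u‖ < t → ‖w‖ < 1 → m ≠ 0 → m ≤ L → Me e (w ^ m) = u → ‖w‖ ≤ s := by
  have hk' : max k 0 < 1 := max_lt hk one_pos
  obtain ⟨t, h1, h2, h3⟩ := pw L hk' one_pos
  have h4 : t < (t + 1) / 2 := by linarith
  have h5 : (t + 1) / 2 < 1 := by linarith
  obtain ⟨t', ht'⟩ : ∃ t', t' = (t + 1) / 2 := ⟨_, rfl⟩
  rw [← ht'] at h4 h5
  have h6 : 1 - (1 - t ^ 2) * (1 - t' ^ 2) / 4 < 1 := by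
    have a1 : 0 < 1 - t ^ 2 := by nlinarith
    have a2 : 0 < 1 - t' ^ 2 := by nlinarith
    have := mul_pos a1 a2
    linarith
  obtain ⟨s, h7, h8, h9⟩ := pw (2 * L) h6 h2
  refine ⟨max k 0, t, t', s, le_max_left _ _, hk', h1, h4, h5, h8, h7.le, fun m hm _ => ?_, fun e u w m he hu hw hm0 hm h => ?_⟩
  · exact h3.le.trans (pow_le_pow_of_le_one h1.le h2.le hm)
  · by_contra hcon
    push Not at hcon
    have hzw : ‖w ^ m‖ < 1 := by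
      rw [norm_pow]
      exact pow_lt_one₀ (norm_nonneg w) hw hm0
    have h10 := me_bd h1 h2 h5 he hu hzw h
    have h11 : s ^ (2 * L) ≤ ‖w ^ m‖ ^ 2 := by
      rw [norm_pow, ← pow_mul]
      have hs0 : 0 ≤ s := (h1.trans h7).le
      calc s ^ (2 * L) ≤ ‖w‖ ^ (2 * L) := pow_le_pow_left₀ hs0 hcon.le _
        _ ≤ ‖w‖ ^ (m * 2) := pow_le_pow_of_le_one (norm_nonneg w) hw.le (by omega)
    linarith

theorem un_nhds {G : ℂ → ℂ} (h : Un G) {r : ℝ} (hr : 0 < r) (hr1 : r ≤ 1) {V : Set ℂ} (hV : IsOpen V) (hV1 : V ⊆ ball 0 1)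
    {w : ℂ} (hw : w ∈ V) : (fun z : ℂ => (z : OnePoint ℂ)) '' (G '' V) ∈ 𝓝 ((G w : ℂ) : OnePoint ℂ) := by
  have h1 : IsOpen (G '' V) := uh_open isOpen_ball h.1 h.2 hV hV1
  exact (OnePoint.isOpenEmbedding_coe.isOpenMap _ h1).mem_nhds ⟨_, ⟨w, hw, rfl⟩, rfl⟩

private theorem me_zero (e : ℂ) : Me e 0 = e := by
  unfold Me
  simp

/-- THEOREM M in the plane -/
theorem ker {a b : Polynomial ℂ} {C : Set ℂ} (h : Hyp a b C) (h6 : J6 (rat a b)) {μ : ℂ → ℂ} (hμ : FI (rat a b) μ) {x : ℂ}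
    (hx : (x : OnePoint ℂ) ∈ JS (rat a b)) (h1 : ‖μ x‖ = 1) (hac : AC μ x (μ x)) {a0 : ℂ} (ha0 : a0 ∈ C)
    (hom : (a0 : OnePoint ℂ) ∈ Om (rat a b) (x : OnePoint ℂ))
    (hret : ∃ c ∈ C, (c : OnePoint ℂ) ∈ Om (rat a b) (a0 : OnePoint ℂ)) (L : ℕ) {k : ℝ} (hk : k < 1) :
    ∃ ε : ℝ, 0 < ε ∧ ∀ (g ψ : ℂ → ℂ → ℂ) (l : ℂ → ℕ), Sys a b C L ε g ψ l → ¬ Nice a b C g ψ k := by
  obtain ⟨L1, ε1, hε1, hstep⟩ := step h
  obtain ⟨L2, ε2, hε2, hchn⟩ := chn h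
  obtain ⟨L3, ε3, hε3, hvis⟩ := vis h
  obtain ⟨L', hL'⟩ : ∃ L', L' = max L (max L1 (max L2 L3)) := ⟨_, rfl⟩
  have hLL : L ≤ L' := by rw [hL']; exact le_max_left _ _
  have hL1 : L1 ≤ L' := by rw [hL']; exact (le_max_left _ _).trans (le_max_right _ _)
  have hL2 : L2 ≤ L' := by rw [hL']; exact ((le_max_left _ _).trans (le_max_right _ _)).trans (le_max_right _ _)
  have hL3 : L3 ≤ L' := by rw [hL']; exact ((le_max_right _ _).trans (le_max_right _ _)).trans (le_max_right _ _)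
  obtain ⟨k', t, t', s, hkk, hk1, ht0, htt, ht1, hs1, hts, hkt, hms⟩ := par L' hk
  have htlt : t < 1 := htt.trans ht1
  have hd1 : 1 ≤ max a.natDegree b.natDegree := le_trans one_le_two h.deg
  obtain ⟨ε4, hε4, hno⟩ := no_two h.cop hd1 h.inf h6 hμ hx h1 hac L' hs1 ht1
  -- distances of the points of `C`
  obtain ⟨ε5, hε5, hsep⟩ : ∃ ε5 : ℝ, 0 < ε5 ∧ ∀ c ∈ C, c ≠ a0 → ε5 ≤ ‖a0 - c‖ := by
    have hf : (C \ {a0}).Finite := h.fin.subset sdiff_subset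
    by_cases hne : (C \ {a0}).Nonempty
    · obtain ⟨c1, hc1, hmin⟩ := hf.exists_minimalFor (fun c => ‖a0 - c‖) _ hne
      refine ⟨‖a0 - c1‖, norm_pos_iff.2 (sub_ne_zero.2 fun h0 => hc1.2 h0.symm), fun c hc hca => ?_⟩
      by_contra hcon
      push Not at hcon
      exact absurd (hmin ⟨hc, hca⟩ hcon.le) (not_le.2 hcon)
    · exact ⟨1, one_pos, fun c hc hca => absurd ⟨c, hc, hca⟩ hne⟩
  refine ⟨min ε1 (min ε2 (min ε3 (min ε4 ε5))), lt_min hε1 (lt_min hε2 (lt_min hε3 (lt_min hε4 hε5))), ?_⟩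
  intro g ψ l hS hN
  obtain ⟨ε, hεd⟩ : ∃ ε, ε = min ε1 (min ε2 (min ε3 (min ε4 ε5))) := ⟨_, rfl⟩
  rw [← hεd] at hS
  have he1 : ε ≤ ε1 := by rw [hεd]; exact min_le_left _ _
  have he2 : ε ≤ ε2 := by rw [hεd]; exact (min_le_right _ _).trans (min_le_left _ _)
  have he3 : ε ≤ ε3 := by rw [hεd]; exact ((min_le_right _ _).trans (min_le_right _ _)).trans (min_le_left _ _)
  have he4 : ε ≤ ε4 := by
    rw [hεd]; exact (((min_le_right _ _).trans (min_le_right _ _)).trans (min_le_right _ _)).trans (min_le_left _ _)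
  have he5 : ε ≤ ε5 := by
    rw [hεd]; exact (((min_le_right _ _).trans (min_le_right _ _)).trans (min_le_right _ _)).trans (min_le_right _ _)
  have hS' : Sys a b C L' ε g ψ l :=
    ⟨hS.gu, hS.gs, hS.pu, hS.p0, hS.ps, hS.l2, fun c hc => (hS.lL c hc).trans hLL, hS.fp⟩
  have hN' : Nice a b C g ψ k' := by
    intro c hc b' hb' n G hG h2 h3 w hw
    obtain ⟨u, hu, hGu⟩ := hN c hc b' hb' n G hG h2 h3 w hw
    exact ⟨u, hu.trans_le hkk, hGu⟩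
  have hNT : ∀ c ∈ C, NoTwo (rat a b) x L' s t' (g c) := fun c hc =>
    hno (g c) (hS.gu c hc) fun w hw => (hS.gs c hc w hw).trans_le he4
  have hbt : ball (0 : ℂ) t ⊆ ball 0 1 := ball_subset_ball htlt.le
  have hz1 : (0 : ℂ) ∈ ball (0 : ℂ) 1 := mem_ball_self one_pos
  -- the first passage
  have hex : ∃ m : ℕ, 1 ≤ m ∧ ∃ c ∈ C, ∃ e : ℂ, ‖e‖ < t ∧ (rat a b)^[m] (a0 : OnePoint ℂ) = ((ψ c e : ℂ) : OnePoint ℂ) := by
    obtain ⟨c, hc, hO⟩ := hret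
    have h2 := un_nhds (hS.pu c hc) ht0 htlt.le isOpen_ball hbt (mem_ball_self ht0)
    rw [hS.p0 c hc] at h2
    obtain ⟨m, hm1, hm2⟩ := (frequently_atTop.1 (hO _ h2)) 1
    obtain ⟨_, ⟨e, he, rfl⟩, hee⟩ := hm2
    exact ⟨m, hm1, c, hc, e, mem_ball_zero_iff.1 he, hee.symm⟩
  classical
  obtain ⟨m, ⟨hm1, c, hc, e, he, hme⟩, hmin⟩ : ∃ m : ℕ, (1 ≤ m ∧ ∃ c ∈ C, ∃ e : ℂ, ‖e‖ < t ∧
      (rat a b)^[m] (a0 : OnePoint ℂ) = ((ψ c e : ℂ) : OnePoint ℂ)) ∧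
      ∀ j < m, ¬ (1 ≤ j ∧ ∃ c ∈ C, ∃ e : ℂ, ‖e‖ < t ∧ (rat a b)^[j] (a0 : OnePoint ℂ) = ((ψ c e : ℂ) : OnePoint ℂ)) :=
    ⟨Nat.find hex, Nat.find_spec hex, fun j hj => Nat.find_min hex hj⟩
  obtain ⟨n1, rfl⟩ : ∃ n1, m = n1 + 1 := ⟨m - 1, by omega⟩
  have heb : e ∈ ball (0 : ℂ) 1 := mem_ball_zero_iff.2 (he.trans htlt)
  -- the value `f a0`
  have hfa : rat a b ((a0 : ℂ) : OnePoint ℂ) = ((g a0 0 : ℂ) : OnePoint ℂ) := by
    have h2 := hS.fp a0 ha0 0 hz1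
    rw [hS.p0 a0 ha0, zero_pow (by have := hS.l2 a0 ha0; omega)] at h2
    exact h2
  have hme' : (rat a b)^[n1] ((g a0 0 : ℂ) : OnePoint ℂ) = ((ψ c e : ℂ) : OnePoint ℂ) := by
    rw [← hfa, ← Function.iterate_succ_apply]
    exact hme
  obtain ⟨Φ, hΦ, hΦn, hΦe⟩ : ∃ Φ : ℂ → ℂ, Un Φ ∧
      (∀ w ∈ ball (0 : ℂ) 1, (rat a b)^[n1] ((Φ w : ℂ) : OnePoint ℂ) = ((ψ c w : ℂ) : OnePoint ℂ)) ∧ Φ e = g a0 0 := by
    rcases hchn L' ε k' t g ψ l hS' he2 hN' hk1 ht0 htlt hkt n1 c hc (g a0 0) e heb hme' with h2 | h2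
    · exact h2
    · exfalso
      obtain ⟨j, hj, b', hb', e', w1, q, η, -, -, -, -, -, h3, hw1, -, h4⟩ := h2
      refine hmin (j + 1) (by omega) ⟨by omega, b', hb', η w1, (h3 w1 hw1).1, ?_⟩
      rw [Function.iterate_succ_apply, hfa]
      exact h4
  -- the critical pull back at `a0`
  have hfa' : rat a b ((a0 : ℂ) : OnePoint ℂ) = ((Φ e : ℂ) : OnePoint ℂ) := by rw [hΦe]; exact hfa
  obtain ⟨b', hb', e', w1, p, η, he'b, hp2, hpL, hη, hη0, hηf, hw1, hMe, hψa⟩ :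
      ∃ b' ∈ C, ∃ (e' w1 : ℂ) (p : ℕ) (η : ℂ → ℂ), e' ∈ ball (0 : ℂ) 1 ∧ 2 ≤ p ∧ p ≤ L1 ∧ Un η ∧ η 0 = 0 ∧
        (∀ w ∈ ball (0 : ℂ) 1, ‖η w‖ < t ∧
          rat a b ((ψ b' (η w) : ℂ) : OnePoint ℂ) = ((Φ (Me e' (w ^ p)) : ℂ) : OnePoint ℂ)) ∧
        w1 ∈ ball (0 : ℂ) 1 ∧ Me e' (w1 ^ p) = e ∧ ψ b' (η w1) = a0 := by
    rcases hstep L' ε k' t g ψ l hS' he1 hN' hk1 ht0 htlt hkt n1 Φ c hc hΦ hΦn a0 e heb hfa' with h2 | h2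
    · exfalso
      obtain ⟨S1, hS1, h3, h4⟩ := h2
      refine h.crt a0 ha0 ⟨(fun z : ℂ => (z : OnePoint ℂ)) '' (S1 '' ball 0 1), ?_, ?_⟩
      · have h5 := un_nhds hS1 one_pos le_rfl isOpen_ball subset_rfl heb
        rw [h4] at h5
        exact h5
      · rintro _ ⟨_, ⟨w, hw, rfl⟩, rfl⟩ _ ⟨_, ⟨w', hw', rfl⟩, rfl⟩ h5
        have h6 : ((Φ w : ℂ) : OnePoint ℂ) = ((Φ w' : ℂ) : OnePoint ℂ) := by
          rw [← h3 w hw, ← h3 w' hw']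
          exact h5
        rw [hΦ.2 hw hw' (OnePoint.coe_injective h6)]
    · exact h2
  have hbt1 : ∀ w ∈ ball (0 : ℂ) 1, η w ∈ ball (0 : ℂ) 1 := fun w hw =>
    mem_ball_zero_iff.2 ((hηf w hw).1.trans htlt)
  have hba : b' = a0 := by
    by_contra hne
    have h2 := hsep b' hb' hne
    have h3 := hS.ps b' hb' (η w1) (hbt1 w1 hw1)
    rw [hψa] at h3
    exact absurd (h2.trans_lt (h3.trans_le he5)) (lt_irrefl _)
  subst hba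
  have hw10 : w1 = 0 := by
    have h2 : η w1 = 0 := (hS.pu b' hb').2 (hbt1 w1 hw1) hz1 (by rw [hψa, hS.p0 b' hb'])
    exact hη.2 hw1 hz1 (by rw [h2, hη0])
  have hee : e' = e := by
    rw [hw10, zero_pow (by omega), me_zero] at hMe
    exact hMe
  subst hee
  -- a visit
  obtain ⟨n, w2, hw2, hxn⟩ : ∃ (n : ℕ) (w2 : ℂ), ‖w2‖ < t ∧ (rat a b)^[n] (x : OnePoint ℂ) = ((ψ b' (η w2) : ℂ) : OnePoint ℂ) := by
    have hηo : IsOpen (η '' ball 0 t) := uh_open isOpen_ball hη.1 hη.2 isOpen_ball hbt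
    have hηs : η '' ball 0 t ⊆ ball 0 1 := by
      rintro _ ⟨w, hw, rfl⟩
      exact hbt1 w (hbt hw)
    have h2 := un_nhds (hS.pu b' hb') ht0 htlt.le hηo hηs ⟨0, mem_ball_self ht0, hη0⟩
    rw [hS.p0 b' hb'] at h2
    obtain ⟨n, hn⟩ := (hom _ h2).exists
    obtain ⟨_, ⟨_, ⟨w2, hw2, rfl⟩, rfl⟩, h3⟩ := hn
    exact ⟨n, w2, mem_ball_zero_iff.1 hw2, h3.symm⟩
  have hw2b : w2 ∈ ball (0 : ℂ) 1 := mem_ball_zero_iff.2 (hw2.trans htlt)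
  obtain ⟨Φ1, hΦ1, hΦ1i, hΦ1n, hΦ1x⟩ := hvis L' ε k' t t' s g ψ l hS' he3 hN' hk1 ht0 htt ht1 hkt hL3 hms x hNT n b' hb'
    (η w2) (hηf w2 hw2b).1 hxn
  have hηt' : ∀ w ∈ ball (0 : ℂ) 1, η w ∈ ball (0 : ℂ) t' := fun w hw =>
    mem_ball_zero_iff.2 ((hηf w hw).1.trans htt)
  have hΨ : Un (Φ1 ∘ η) := by
    refine ⟨hΦ1.comp hη.1 hηt', ?_⟩
    intro w hw w' hw' h2
    exact hη.2 hw hw' (hΦ1i (hηt' w hw) (hηt' w' hw') h2)
  have he'1 : ‖e'‖ < 1 := mem_ball_zero_iff.1 he'b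
  refine hNT c hc (n1 + 1 + 1 + n) p (l c) hp2 (hpL.trans hL1) (hS'.l2 c hc) (hS'.lL c hc) e' (he.trans htt).le (Φ1 ∘ η) hΨ ?_
    w2 (hw2.le.trans hts) hΦ1x
  intro w hw
  have hMb : Me e' (w ^ p) ∈ ball (0 : ℂ) 1 := by
    have hwp : ‖w ^ p‖ < 1 := by
      rw [norm_pow]
      exact pow_lt_one₀ (norm_nonneg w) (mem_ball_zero_iff.1 hw) (by omega)
    exact mem_ball_zero_iff.2 (Pool.H81.MM.mob_lt he'1 hwp)
  rw [Function.iterate_add_apply, Function.comp_apply, hΦ1n (η w) (hηt' w hw), Function.iterate_succ_apply, (hηf w hw).2,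
    Function.iterate_succ_apply', hΦn _ hMb, hS.fp c hc _ hMb]
  rfl

end Pool.Agent.H47.MM
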