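import Pool.Agent.H47.MM.Defs
import Pool.Agent.H66.MM.Core
import Pool.Agent.H39.EMB.RT
import Pool.Agent.H32.BT.Crit

/-!
# Module Lift: small univalent discs lift to univalent discs or to one critical pass

PROOF. The fibre of the finite value `v` is finite and, since `f ∞ = ∞`, in the plane: `z 1, .., z N`. Near `z i`: `gg z = v + β z ^ n`, `β` holomorphic and injective on a small ball (`loc_pow`, H39/EMB/RT), `n = 1` or `z i` critical. `L = max n i`. For small `r`: `f⁻¹ (ball v r)` is in the union of the balls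
(compactness of the sphere), `r ≤ ρ i ^ n i`, `ball 0 (ρ i) ⊆ β '' ball`. Then `root_free`, `root_zero` (H66/MM/Core).
-/

set_option autoImplicit false

open Filter Topology Polynomial Metric Set MeasureTheory

namespace Pool.Agent.H47.MM

open Pool.Agent.H44.Fatou (rat rat_continuous rat_coe rat_coe_of_ne pt)
open Pool.Agent.H32.BT (IsCrit rat_fiber_finite)
open Pool.Agent.H66.MM (root_free root_zero mem_pow)
open Pool.Agent.H47.LW (mo mo_lt)

theorem me_mo (e w : ℂ) : Me e w = mo e w := rfl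

/-- local form at a finite point with a finite value -/
private theorem loc_form {a b : Polynomial ℂ} (hcop : IsCoprime a b) (hd : 1 ≤ max a.natDegree b.natDegree) {v z0 : ℂ}
    (hz : rat a b (z0 : OnePoint ℂ) = (v : OnePoint ℂ)) : ∃ (n : ℕ) (β : ℂ → ℂ) (R : ℝ), 0 < n ∧ 0 < R ∧
      DifferentiableOn ℂ β (ball z0 R) ∧ InjOn β (ball z0 R) ∧ β z0 = 0 ∧
      (∀ z ∈ ball z0 R, rat a b (z : OnePoint ℂ) = ((v + β z ^ n : ℂ) : OnePoint ℂ)) ∧
      (2 ≤ n → IsCrit (rat a b) (z0 : OnePoint ℂ)) := by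
  have hb : b.eval z0 ≠ 0 := by
    intro h0
    rw [rat_coe] at hz
    unfold pt at hz
    rw [if_pos h0] at hz
    exact OnePoint.infty_ne_coe _ hz
  have hg : a.eval z0 / b.eval z0 = v := by
    rw [rat_coe_of_ne hb] at hz
    exact OnePoint.coe_injective hz
  have han : AnalyticAt ℂ (fun z => a.eval z / b.eval z) z0 :=
    (a.differentiable.analyticAt z0).div (b.differentiable.analyticAt z0) hb
  have hbe : ∀ᶠ z in 𝓝 z0, b.eval z ≠ 0 := b.continuous.continuousAt.eventually_ne hb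
  have hnc : ¬ ∀ᶠ z in 𝓝 z0, a.eval z / b.eval z - a.eval z0 / b.eval z0 = 0 := by
    intro hcon
    have hfin : (rat a b ⁻¹' {(v : OnePoint ℂ)}).Finite := rat_fiber_finite hcop hd _
    have h1 : {z : ℂ | rat a b (z : OnePoint ℂ) = (v : OnePoint ℂ)}.Finite :=
      hfin.preimage OnePoint.coe_injective.injOn
    have h2 : {z : ℂ | rat a b (z : OnePoint ℂ) = (v : OnePoint ℂ)} ∈ 𝓝 z0 := by
      filter_upwards [hcon, hbe] with z h3 h4
      show rat a b (z : OnePoint ℂ) = (v : OnePoint ℂ)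
      rw [rat_coe_of_ne h4, sub_eq_zero.1 h3, hg]
    have h3 : (𝓝[≠] z0).NeBot := inferInstance
    exact infinite_of_mem_nhds z0 h2 h1
  obtain ⟨n, ψ, hn, hψ, hψd, he⟩ := Pool.Agent.H39.EMB.loc_pow han hnc
  have hψ0 : ψ z0 = 0 := by
    have h1 := he.self_of_nhds
    simp only [sub_self] at h1
    exact (pow_eq_zero_iff hn.ne').1 h1.symm
  have hsd : HasStrictDerivAt ψ (deriv ψ z0) z0 := hψ.hasStrictDerivAt
  set Θ := (hsd.hasStrictFDerivAt_equiv hψd).toOpenPartialHomeomorph ψ with hΘ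
  have hΘs : Θ.source ∈ 𝓝 z0 :=
    Θ.open_source.mem_nhds (hsd.hasStrictFDerivAt_equiv hψd).mem_toOpenPartialHomeomorph_source
  have hΘi : InjOn ψ Θ.source := Θ.injOn
  obtain ⟨R, hR, hball⟩ := Metric.eventually_nhds_iff_ball.1
    (((he.and hbe).and hψ.eventually_analyticAt).and (eventually_mem_set.2 hΘs))
  have hval : ∀ z ∈ ball z0 R, rat a b (z : OnePoint ℂ) = ((v + ψ z ^ n : ℂ) : OnePoint ℂ) := by
    intro z hz
    have h1 := (hball z hz).1.1
    rw [rat_coe_of_ne h1.2, ← h1.1, hg]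
    congr 1
    ring
  have hinj : InjOn ψ (ball z0 R) := fun z hz z' hz' => hΘi (hball z hz).2 (hball z' hz').2
  have hdif : DifferentiableOn ℂ ψ (ball z0 R) := fun z hz => (hball z hz).1.2.differentiableAt.differentiableWithinAt
  refine ⟨n, ψ, R, hn, hR, hdif, hinj, hψ0, hval, ?_⟩
  rintro h2 ⟨U, hU, hUi⟩
  have hU' : {z : ℂ | (z : OnePoint ℂ) ∈ U} ∈ 𝓝 z0 := OnePoint.continuous_coe.continuousAt.preimage_mem_nhds hU
  have hmap : ψ '' ({z : ℂ | (z : OnePoint ℂ) ∈ U} ∩ ball z0 R) ∈ 𝓝 (0 : ℂ) := by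
    have h3 := hsd.map_nhds_eq hψd
    rw [hψ0] at h3
    rw [← h3]
    exact image_mem_map (inter_mem hU' (ball_mem_nhds z0 hR))
  obtain ⟨s, hs, hsb⟩ := Metric.mem_nhds_iff.1 hmap
  obtain ⟨ω, hω⟩ : ∃ ω : ℂ, IsPrimitiveRoot ω n := ⟨_, Complex.isPrimitiveRoot_exp n hn.ne'⟩
  have hω1 : ω ≠ 1 := hω.ne_one h2
  have hωn : ‖ω‖ = 1 := Complex.norm_eq_one_of_pow_eq_one hω.pow_eq_one hn.ne'
  set t : ℂ := ((s / 2 : ℝ) : ℂ) with ht
  have htn : ‖t‖ = s / 2 := by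
    rw [ht, Complex.norm_real, Real.norm_of_nonneg (by positivity)]
  have ht0 : t ≠ 0 := by
    rw [← norm_pos_iff, htn]
    positivity
  obtain ⟨z1, ⟨hz1U, hz1R⟩, hz1⟩ := hsb (show t ∈ ball (0 : ℂ) s by rw [mem_ball_zero_iff, htn]; linarith)
  obtain ⟨z2, ⟨hz2U, hz2R⟩, hz2⟩ := hsb (show ω * t ∈ ball (0 : ℂ) s by
    rw [mem_ball_zero_iff, norm_mul, hωn, htn]
    linarith)
  have h5 : rat a b (z1 : OnePoint ℂ) = rat a b (z2 : OnePoint ℂ) := by
    rw [hval z1 hz1R, hval z2 hz2R, hz1, hz2, mul_pow, hω.pow_eq_one, one_mul]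
  have h6 : z1 = z2 := OnePoint.coe_injective (hUi hz1U hz2U h5)
  rw [h6, hz2] at hz1
  exact hω1 (mul_right_cancel₀ ht0 (by rw [hz1, one_mul]))

theorem lift {a b : Polynomial ℂ} (hcop : IsCoprime a b) (hd : 1 ≤ max a.natDegree b.natDegree)
    (hfi : rat a b OnePoint.infty = OnePoint.infty) (v : ℂ) : ∃ L : ℕ, ∀ ε : ℝ, 0 < ε → ∃ r : ℝ, 0 < r ∧
      ∀ S : ℂ → ℂ, Un S → (∀ w ∈ ball (0 : ℂ) 1, ‖S w - v‖ < r) → ∀ y w0 : ℂ, w0 ∈ ball (0 : ℂ) 1 →
        rat a b (y : OnePoint ℂ) = (S w0 : OnePoint ℂ) →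
        (∃ S1 : ℂ → ℂ, Un S1 ∧ (∀ w ∈ ball (0 : ℂ) 1, rat a b ((S1 w : ℂ) : OnePoint ℂ) = ((S w : ℂ) : OnePoint ℂ)) ∧
          S1 w0 = y) ∨
        ∃ (b' e w1 : ℂ) (n : ℕ) (χ : ℂ → ℂ), IsCrit (rat a b) (b' : OnePoint ℂ) ∧
          rat a b (b' : OnePoint ℂ) = (v : OnePoint ℂ) ∧ e ∈ ball (0 : ℂ) 1 ∧ S e = v ∧ 2 ≤ n ∧ n ≤ L ∧ Un χ ∧ χ 0 = b' ∧
          (∀ w ∈ ball (0 : ℂ) 1, ‖χ w - b'‖ < ε ∧
            rat a b ((χ w : ℂ) : OnePoint ℂ) = ((S (Me e (w ^ n)) : ℂ) : OnePoint ℂ)) ∧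
          w1 ∈ ball (0 : ℂ) 1 ∧ Me e (w1 ^ n) = w0 ∧ χ w1 = y := by
  classical
  have hfin : (rat a b ⁻¹' {(v : OnePoint ℂ)}).Finite := rat_fiber_finite hcop hd _
  -- data at every finite point of the fibre
  have hdat : ∀ z0 : ℂ, ∃ (n : ℕ) (β : ℂ → ℂ) (R : ℝ), 0 < n ∧ 0 < R ∧
      (rat a b (z0 : OnePoint ℂ) = (v : OnePoint ℂ) → DifferentiableOn ℂ β (ball z0 R) ∧ InjOn β (ball z0 R) ∧ β z0 = 0 ∧
      (∀ z ∈ ball z0 R, rat a b (z : OnePoint ℂ) = ((v + β z ^ n : ℂ) : OnePoint ℂ)) ∧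
      (2 ≤ n → IsCrit (rat a b) (z0 : OnePoint ℂ))) := by
    intro z0
    by_cases hz : rat a b (z0 : OnePoint ℂ) = (v : OnePoint ℂ)
    · obtain ⟨n, β, R, h1, h2, h3, h4, h5, h6, h7⟩ := loc_form hcop hd hz
      exact ⟨n, β, R, h1, h2, fun _ => ⟨h3, h4, h5, h6, h7⟩⟩
    · exact ⟨1, id, 1, one_pos, one_pos, fun h => absurd h hz⟩
  choose n β R hn hR hdat using hdat
  set F : Finset ℂ := (hfin.preimage OnePoint.coe_injective.injOn).toFinset with hF
  have hFm : ∀ z : ℂ, z ∈ F ↔ rat a b (z : OnePoint ℂ) = (v : OnePoint ℂ) := fun z => by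
    rw [hF, Set.Finite.mem_toFinset]
    rfl
  refine ⟨F.sup n, fun ε hε => ?_⟩
  -- the radius of `β '' ball z (min R ε)`
  have hrad : ∀ z : ℂ, ∃ ρ : ℝ, 0 < ρ ∧ (rat a b (z : OnePoint ℂ) = (v : OnePoint ℂ) →
      ball 0 ρ ⊆ β z '' ball z (min (R z) ε)) := by
    intro z
    by_cases hz : rat a b (z : OnePoint ℂ) = (v : OnePoint ℂ)
    · obtain ⟨h3, h4, h5, -, -⟩ := hdat z hz
      have h6 := Pool.Agent.H39.HO.inj_open isOpen_ball h3 h4 (ball_subset_ball (min_le_left (R z) ε)) isOpen_ball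
      have h7 : (0 : ℂ) ∈ β z '' ball z (min (R z) ε) := ⟨z, mem_ball_self (lt_min (hR z) hε), h5⟩
      obtain ⟨ρ, hρ, hb⟩ := Metric.isOpen_iff.1 h6 0 h7
      exact ⟨ρ, hρ, fun _ => hb⟩
    · exact ⟨1, one_pos, fun h => absurd h hz⟩
  choose ρ hρ hrad using hrad
  have hmin : ∀ s : Finset ℂ, ∃ δ0 : ℝ, 0 < δ0 ∧ ∀ x ∈ s, δ0 ≤ ρ x ^ n x := by
    intro s
    induction s using Finset.induction_on with
    | empty => exact ⟨1, one_pos, fun c hc => absurd hc (Finset.notMem_empty c)⟩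
    | insert x s hx ih =>
      obtain ⟨ρ0, h1, h2⟩ := ih
      refine ⟨min ρ0 (ρ x ^ n x), lt_min h1 (pow_pos (hρ x) _), fun c hc => ?_⟩
      rcases Finset.mem_insert.1 hc with h3 | h3
      · rw [h3]
        exact min_le_right _ _
      · exact (min_le_left _ _).trans (h2 c h3)
  obtain ⟨δ0, hδ0, hδ0r⟩ := hmin F
  set O : Set (OnePoint ℂ) := ⋃ x ∈ F, (fun z : ℂ => (z : OnePoint ℂ)) '' (ball x (min (R x) ε)) with hO
  have hOo : IsOpen O := isOpen_biUnion fun x _ => OnePoint.isOpenEmbedding_coe.isOpenMap _ isOpen_ball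
  have hfO : ∀ x, rat a b x = (v : OnePoint ℂ) → x ∈ O := by
    intro x hx
    have hxi : x ≠ OnePoint.infty := by
      rintro rfl
      rw [hfi] at hx
      exact OnePoint.infty_ne_coe _ hx
    obtain ⟨w, rfl⟩ := OnePoint.ne_infty_iff_exists.1 hxi
    exact Set.mem_biUnion ((hFm w).2 hx) ⟨w, mem_ball_self (lt_min (hR w) hε), rfl⟩
  have hcl : IsClosed (rat a b '' Oᶜ) := (rat_continuous hcop).isClosedMap _ hOo.isClosed_compl
  have hvn : (v : OnePoint ℂ) ∉ rat a b '' Oᶜ := by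
    rintro ⟨x, hx, hx2⟩
    exact hx (hfO x hx2)
  have hpre : IsOpen {u : ℂ | (u : OnePoint ℂ) ∉ rat a b '' Oᶜ} :=
    hcl.isOpen_compl.preimage OnePoint.continuous_coe
  obtain ⟨r1, hr1, hball⟩ := Metric.isOpen_iff.1 hpre v hvn
  refine ⟨min δ0 r1, lt_min hδ0 hr1, fun S hS hSv y w0 hw0 hy => ?_⟩
  have hyO : (y : OnePoint ℂ) ∈ O := by
    by_contra hc
    have h1 : S w0 ∈ ball v r1 := by
      rw [mem_ball, dist_eq_norm]
      exact (hSv w0 hw0).trans_le (min_le_right _ _)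
    exact hball h1 ⟨(y : OnePoint ℂ), hc, hy⟩
  obtain ⟨z, hzF, y', hy', hyy⟩ := Set.mem_iUnion₂.1 hyO
  obtain rfl : y' = y := OnePoint.coe_injective hyy
  have hz := (hFm z).1 hzF
  obtain ⟨hβd, hβi, hβ0, hβf, hβc⟩ := hdat z hz
  set β0 := β z with hβ0'
  set k := Function.invFunOn β0 (ball z (R z)) with hk
  have hsub : ball z (min (R z) ε) ⊆ ball z (R z) := ball_subset_ball (min_le_left _ _)
  have hkd : DifferentiableOn ℂ k (ball 0 (ρ z)) :=
    (Pool.Agent.H39.HO.inj_hol isOpen_ball hβd hβi).mono ((hrad z hz).trans (image_mono hsub))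
  have hkβ : ∀ x ∈ ball z (R z), k (β0 x) = x := fun x hx =>
    hβi (Function.invFunOn_mem (mem_image_of_mem _ hx)) hx (Function.invFunOn_eq (mem_image_of_mem _ hx))
  have hkm : ∀ u ∈ ball (0 : ℂ) (ρ z), k u ∈ ball z (min (R z) ε) ∧ β0 (k u) = u := by
    intro u hu
    obtain ⟨x, hx, hxu⟩ := hrad z hz hu
    rw [← hxu, hkβ x (hsub hx)]
    exact ⟨hx, rfl⟩
  have hki : InjOn k (ball 0 (ρ z)) := by
    intro u hu u' hu' he
    rw [← (hkm u hu).2, ← (hkm u' hu').2, he]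
  set h : ℂ → ℂ := fun w => S w - v with hh
  have hhd : DifferentiableOn ℂ h (ball 0 1) := hS.1.sub_const _
  have hhi : InjOn h (ball 0 1) := fun x hx x' hx' hxx => hS.2 hx hx' (sub_left_inj.1 hxx)
  have hyR : y' ∈ ball z (R z) := hsub hy'
  have ha : β0 y' ^ n z = h w0 := by
    have h1 := hβf y' hyR
    rw [hy] at h1
    have h2 : S w0 = v + β0 y' ^ n z := OnePoint.coe_injective h1
    show β0 y' ^ n z = S w0 - v
    rw [h2]
    ring
  have hsm : ∀ (s : ℂ) (w : ℂ), w ∈ ball (0 : ℂ) 1 → s ^ n z = h w → s ∈ ball (0 : ℂ) (ρ z) := fun s w hw hs => by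
    rw [mem_ball_zero_iff]
    have h1 : ‖s‖ ^ n z < ρ z ^ n z := by
      rw [← norm_pow, hs]
      exact (hSv w hw).trans_le ((min_le_left _ _).trans (hδ0r z hzF))
    exact lt_of_pow_lt_pow_left₀ _ (hρ z).le h1
  have hky : k (β0 y') = y' := hkβ y' hyR
  by_cases h0 : ∃ e ∈ ball (0 : ℂ) 1, h e = 0
  · obtain ⟨e, he, he0⟩ := h0
    by_cases hn2 : 2 ≤ n z
    · right
      obtain ⟨H, hHd, hHi, hH0, hHe, w1, hw1, hHw1, hmo⟩ := root_zero hhd hhi he he0 (hn z) hw0 ha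
      have hHm : MapsTo H (ball 0 1) (ball 0 (ρ z)) := fun w hw => by
        refine hsm _ (mo e (w ^ n z)) ?_ (hHe w hw)
        exact mem_ball_zero_iff.2 (mo_lt (mem_ball_zero_iff.1 he) (mem_ball_zero_iff.1 (mem_pow hw (hn z))))
      refine ⟨z, e, w1, n z, fun w => k (H w), hβc hn2, hz, he, sub_eq_zero.1 he0, hn2, Finset.le_sup hzF,
        ⟨hkd.comp hHd hHm, hki.comp hHi hHm⟩, ?_, ?_, hw1, hmo, ?_⟩
      · show k (H 0) = z
        rw [hH0]
        have := hkβ z (mem_ball_self (hR z))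
        rwa [hβ0] at this
      · intro w hw
        have h1 := hkm _ (hHm hw)
        refine ⟨?_, ?_⟩
        · have h2 := h1.1
          rw [mem_ball, dist_eq_norm] at h2
          exact h2.trans_le (min_le_right _ _)
        · show rat a b ((k (H w) : ℂ) : OnePoint ℂ) = ((S (Me e (w ^ n z)) : ℂ) : OnePoint ℂ)
          rw [hβf _ (hsub h1.1), h1.2, hHe w hw]
          congr 1
          show v + (S (mo e (w ^ n z)) - v) = S (Me e (w ^ n z))
          rw [me_mo]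
          ring
      · show k (H w1) = y'
        rw [hHw1, hky]
    · left
      have hn1 : n z = 1 := by have := hn z; omega
      have hHm : MapsTo h (ball 0 1) (ball 0 (ρ z)) := fun w hw => hsm _ w hw (by rw [hn1, pow_one])
      refine ⟨fun w => k (h w), ⟨hkd.comp hhd hHm, hki.comp hhi hHm⟩, fun w hw => ?_, ?_⟩
      · have h1 := hkm _ (hHm hw)
        show rat a b ((k (h w) : ℂ) : OnePoint ℂ) = ((S w : ℂ) : OnePoint ℂ)
        rw [hβf _ (hsub h1.1), h1.2, hn1, pow_one]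
        congr 1
        show v + (S w - v) = S w
        ring
      · show k (h w0) = y'
        rw [hn1, pow_one] at ha
        rw [← ha, hky]
  · left
    have h0' : ∀ x ∈ ball (0 : ℂ) 1, h x ≠ 0 := fun x hx hx0 => h0 ⟨x, hx, hx0⟩
    obtain ⟨H, hHd, hHi, hHe, hHw⟩ := root_free hhd hhi h0' (hn z) hw0 ha
    have hHm : MapsTo H (ball 0 1) (ball 0 (ρ z)) := fun w hw => hsm _ w hw (hHe w hw)
    refine ⟨fun w => k (H w), ⟨hkd.comp hHd hHm, hki.comp hHi hHm⟩, fun w hw => ?_, ?_⟩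
    · have h1 := hkm _ (hHm hw)
      show rat a b ((k (H w) : ℂ) : OnePoint ℂ) = ((S w : ℂ) : OnePoint ℂ)
      rw [hβf _ (hsub h1.1), h1.2, hHe w hw]
      congr 1
      show v + (S w - v) = S w
      ring
    · show k (H w0) = y'
      rw [hHw, hky]

end Pool.Agent.H47.MM
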