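import Pool.Agent.H47.MM.Lift
import Pool.Agent.H47.MM.Inn
import Pool.Agent.H66.UX.LFT

/-!
# Module Step: one step of the pull back

PROOF. `ε1`: from `Hyp.off` (`ρ`), `lift` at the finitely many values `f c`, `c ∈ C` (with `ε = 1`; if `f c` is infinite there is nothing to do since `Sys.fp` at `w = 0` gives `f c = g c 0`), and the distance of `C` to the critical points off `C`. Case 1: `S '' ball 0 1` contains no critical value: `lft` (H66/UX/LFT, `S` = the disc, star convex about `0`) gives `S1`, `f (S1 w) = S w`, injective since `S` is. Case 2: `S u = f c'`, `c'`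
critical. `c' ∈ C`: otherwise `f^[n + 1] c' = ψ c u` is `ε`-near `c`, contradiction to `off`. `Nice`: `S w ∈ g c' '' ball 0 k` for all `w`, so `‖S w - f c'‖ < ε ≤ r`: `lift` with `v = f c'`. First alternative: done. Second: `b''` with `f b'' = f c' = S e`, `b''` is critical, so in `C` (same argument); `Nice` for `b''`: `f (χ w) = S (Me e (w ^ m)) = g b'' u`, `‖u‖ < k`; `inn` with `ψ b''` gives `h`.
(`‖Me e z‖ < 1` for `‖e‖, ‖z‖ < 1`. `L` of `Sys` must be at least the `L` of `lift`; it is the `L0` here.)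
-/

set_option autoImplicit false

open Filter Topology Polynomial Metric Set MeasureTheory

namespace Pool.Agent.H47.MM

open Pool.Agent.H44.Fatou (rat rat_coe_of_ne)
open Pool.Agent.H32.BT (IsCrit)

private theorem me_lt1 {e z : ℂ} (he : ‖e‖ < 1) (hz : ‖z‖ < 1) : ‖Me e z‖ < 1 := by
  have hne : (1 : ℂ) + (starRingEnd ℂ) e * z ≠ 0 := by
    intro h
    have h1 : (starRingEnd ℂ) e * z = -1 := by linear_combination h
    have h2 : ‖(starRingEnd ℂ) e * z‖ = 1 := by rw [h1, norm_neg, norm_one]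
    rw [norm_mul, RCLike.norm_conj] at h2
    nlinarith [norm_nonneg e, norm_nonneg z]
  unfold Me
  rw [norm_div, div_lt_one (norm_pos_iff.2 hne)]
  have h3 : ‖z + e‖ ^ 2 < ‖(1 : ℂ) + (starRingEnd ℂ) e * z‖ ^ 2 := by
    rw [← Complex.normSq_eq_norm_sq, ← Complex.normSq_eq_norm_sq]
    have h4 : Complex.normSq e < 1 := by
      rw [Complex.normSq_eq_norm_sq]
      nlinarith [norm_nonneg e]
    have h5 : Complex.normSq z < 1 := by
      rw [Complex.normSq_eq_norm_sq]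
      nlinarith [norm_nonneg z]
    rw [Complex.normSq_apply] at h4 h5
    rw [Complex.normSq_apply, Complex.normSq_apply]
    simp only [Complex.add_re, Complex.add_im, Complex.mul_re, Complex.mul_im, Complex.conj_re, Complex.conj_im,
      Complex.one_re, Complex.one_im]
    nlinarith [mul_pos (sub_pos.2 h4) (sub_pos.2 h5)]
  exact lt_of_pow_lt_pow_left₀ 2 (norm_nonneg _) h3

theorem step {a b : Polynomial ℂ} {C : Set ℂ} (h : Hyp a b C) : ∃ (L0 : ℕ) (ε1 : ℝ), 0 < ε1 ∧ ∀ (L : ℕ) (ε k t : ℝ)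
    (g ψ : ℂ → ℂ → ℂ) (l : ℂ → ℕ), Sys a b C L ε g ψ l → ε ≤ ε1 → Nice a b C g ψ k → k < 1 → 0 < t → t < 1 →
    (∀ m : ℕ, m ≤ L → m ≠ 0 → k ≤ t ^ m) → ∀ (n : ℕ) (S : ℂ → ℂ) (c : ℂ), c ∈ C → Un S →
    (∀ w ∈ ball (0 : ℂ) 1, (rat a b)^[n] ((S w : ℂ) : OnePoint ℂ) = ((ψ c w : ℂ) : OnePoint ℂ)) →
    ∀ y w0 : ℂ, w0 ∈ ball (0 : ℂ) 1 → rat a b (y : OnePoint ℂ) = (S w0 : OnePoint ℂ) →
      (∃ S1 : ℂ → ℂ, Un S1 ∧ (∀ w ∈ ball (0 : ℂ) 1, rat a b ((S1 w : ℂ) : OnePoint ℂ) = ((S w : ℂ) : OnePoint ℂ)) ∧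
        S1 w0 = y) ∨
      ∃ b' ∈ C, ∃ (e w1 : ℂ) (m : ℕ) (η : ℂ → ℂ), e ∈ ball (0 : ℂ) 1 ∧ 2 ≤ m ∧ m ≤ L0 ∧ Un η ∧ η 0 = 0 ∧
        (∀ w ∈ ball (0 : ℂ) 1, ‖η w‖ < t ∧
          rat a b ((ψ b' (η w) : ℂ) : OnePoint ℂ) = ((S (Me e (w ^ m)) : ℂ) : OnePoint ℂ)) ∧
        w1 ∈ ball (0 : ℂ) 1 ∧ Me e (w1 ^ m) = w0 ∧ ψ b' (η w1) = y := by
  classical
  obtain ⟨ρ, hρ, hoff⟩ := h.off
  obtain ⟨vf, hvf⟩ : ∃ vf : ℂ → ℂ, ∀ c : ℂ, ∀ v : ℂ, rat a b (c : OnePoint ℂ) = (v : OnePoint ℂ) → vf c = v := by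
    refine ⟨fun c => if hc : ∃ v : ℂ, rat a b (c : OnePoint ℂ) = (v : OnePoint ℂ) then hc.choose else 0, ?_⟩
    intro c v hv
    have hc : ∃ v : ℂ, rat a b (c : OnePoint ℂ) = (v : OnePoint ℂ) := ⟨v, hv⟩
    show (if hc : ∃ v : ℂ, rat a b (c : OnePoint ℂ) = (v : OnePoint ℂ) then hc.choose else 0) = v
    rw [dif_pos hc]
    exact OnePoint.coe_injective (hc.choose_spec.symm.trans hv)
  have hd1 : 1 ≤ max a.natDegree b.natDegree := le_trans (by norm_num) h.deg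
  have hl := fun c : ℂ => lift h.cop hd1 h.inf (vf c)
  choose Lc hLc using hl
  have hl1 := fun c : ℂ => hLc c 1 one_pos
  choose rc hrc0 hrc using hl1
  obtain ⟨L0, hL0⟩ : ∃ L0 : ℕ, ∀ c ∈ C, Lc c ≤ L0 := by
    obtain ⟨L0, hL0⟩ := (h.fin.image Lc).bddAbove
    exact ⟨L0, fun c hc => hL0 ⟨c, hc, rfl⟩⟩
  obtain ⟨r, hr, hrC⟩ : ∃ r : ℝ, 0 < r ∧ ∀ c ∈ C, r ≤ rc c := by
    rcases C.eq_empty_or_nonempty with hE | hE
    · exact ⟨1, one_pos, fun c hc => by rw [hE] at hc; exact absurd hc (notMem_empty c)⟩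
    · obtain ⟨c0, hc0, hmin⟩ := exists_min_image C rc h.fin hE
      exact ⟨rc c0, hrc0 c0, hmin⟩
  refine ⟨L0, min ρ r, lt_min hρ hr, ?_⟩
  intro L ε k t g ψ l hs hε hN hk ht0 ht1 hkt n S c hc hS hSf y w0 hw0 hy
  have hερ : ε ≤ ρ := hε.trans (min_le_left _ _)
  have hεr : ε ≤ r := hε.trans (min_le_right _ _)
  -- critical points over the disc are in `C`
  have hcrit : ∀ c' : OnePoint ℂ, IsCrit (rat a b) c' → ∀ u ∈ ball (0 : ℂ) 1, rat a b c' = ((S u : ℂ) : OnePoint ℂ) →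
      ∃ c1 ∈ C, c' = (c1 : OnePoint ℂ) := by
    intro c' hc' u hu hcu
    by_contra hno
    push Not at hno
    have h1 := hoff c' hc' hno (n + 1) c hc (ψ c u) (by
      rw [Function.iterate_succ_apply, hcu]
      exact hSf u hu)
    have h2 := hs.ps c hc u hu
    linarith
  by_cases hcv : ∀ u ∈ ball (0 : ℂ) 1, ∀ c' : OnePoint ℂ, IsCrit (rat a b) c' → rat a b c' ≠ ((S u : ℂ) : OnePoint ℂ)
  · left
    obtain ⟨G, hG1, hG2, hG3⟩ := Pool.Agent.H66.UX.lft h.cop hd1 h.inf (mem_ball_self one_pos)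
      ((convex_ball (0 : ℂ) 1).starConvex (mem_ball_self one_pos)) isOpen_ball hS.1 hcv hw0 hy
    have hG4 : ∀ w ∈ ball (0 : ℂ) 1, rat a b ((G w : ℂ) : OnePoint ℂ) = ((S w : ℂ) : OnePoint ℂ) := by
      intro w hw
      rw [rat_coe_of_ne (hG3 w hw).1, ← (hG3 w hw).2]
      rfl
    refine ⟨G, ⟨hG1, ?_⟩, hG4, hG2⟩
    intro w hw w' hw' hww
    have h1 := hG4 w hw
    rw [hww, hG4 w' hw'] at h1
    exact (hS.2 hw' hw (OnePoint.coe_injective h1)).symm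
  · push Not at hcv
    obtain ⟨u0, hu0, c', hc', hcu⟩ := hcv
    obtain ⟨c1, hc1, rfl⟩ := hcrit c' hc' u0 hu0 hcu
    have hNc := hN c hc c1 hc1 n S hS hSf ⟨u0, hu0, hcu⟩
    have hg0 : rat a b (c1 : OnePoint ℂ) = ((g c1 0 : ℂ) : OnePoint ℂ) := by
      have h1 := hs.fp c1 hc1 0 (mem_ball_self one_pos)
      rw [hs.p0 c1 hc1, zero_pow (by have := hs.l2 c1 hc1; omega)] at h1
      exact h1
    have hv := hvf c1 _ hg0
    have hsm : ∀ w ∈ ball (0 : ℂ) 1, ‖S w - vf c1‖ < rc c1 := by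
      intro w hw
      obtain ⟨u, hu, huS⟩ := hNc w hw
      rw [huS, hv]
      have h1 := hs.gs c1 hc1 u (by rw [mem_ball_zero_iff]; linarith)
      linarith [hrC c1 hc1]
    rcases hrc c1 S hS hsm y w0 hw0 hy with h1 | h1
    · exact Or.inl h1
    · right
      obtain ⟨b1, e, w1, m, χ, hb1, hb2, he, heS, hm2, hmL, hχ, hχ0, hχf, hw1, hw1m, hw1y⟩ := h1
      rw [hv] at hb2 heS
      have hbe : rat a b (b1 : OnePoint ℂ) = ((S e : ℂ) : OnePoint ℂ) := by rw [hb2, heS]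
      obtain ⟨b2, hb2C, hb12⟩ := hcrit b1 hb1 e he hbe
      have hb12' : b1 = b2 := OnePoint.coe_injective hb12
      rw [← hb12'] at hb2C
      have hNb := hN c hc b1 hb2C n S hS hSf ⟨e, he, hbe⟩
      have hMe : ∀ w ∈ ball (0 : ℂ) 1, Me e (w ^ m) ∈ ball (0 : ℂ) 1 := by
        intro w hw
        rw [mem_ball_zero_iff] at hw he ⊢
        refine me_lt1 he ?_
        rw [norm_pow]
        exact pow_lt_one₀ (norm_nonneg w) hw (by omega)
      obtain ⟨η, hη, hη0, hη1⟩ := inn (f := rat a b) (g := g b1) (ψ := ψ b1) (χ := χ) (n := l b1) (k := k) (t := t)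
        (by have := hs.l2 b1 hb2C; omega) hk
        (hkt (l b1) (hs.lL b1 hb2C) (by have := hs.l2 b1 hb2C; omega)) ht0 ht1 (hs.gu b1 hb2C) (hs.pu b1 hb2C) hχ
        (by rw [hχ0, hs.p0 b1 hb2C]) (hs.fp b1 hb2C) (by
          intro w hw
          obtain ⟨u, hu, huS⟩ := hNb _ (hMe w hw)
          exact ⟨u, hu, by rw [(hχf w hw).2, huS]⟩)
      refine ⟨b1, hb2C, e, w1, m, η, he, hm2, hmL.trans (hL0 c1 hc1), hη, hη0, ?_, hw1, hw1m, ?_⟩
      · intro w hw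
        refine ⟨(hη1 w hw).1, ?_⟩
        rw [← (hη1 w hw).2, (hχf w hw).2]
      · rw [← (hη1 w1 hw1).2, hw1y]

end Pool.Agent.H47.MM
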