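import Pool.Agent.H47.MM.Defs
import Pool.Agent.H47.OI.Pfl
import Pool.Agent.H47.OI.Scw
import Pool.Agent.H81.MM.Pf

/-!
# Module Tpl: two passes are impossible in the limit

PROOF. `scw` (OI/Scw): a subsequence, `φ` univalent, `φ' ≠ 0`, `FCv (pb μ (Φ (s j))) φ c'`. Pass to a further subsequence with `e (s j) → e0`, `‖e0‖ ≤ t < 1` (compact). `FF (e j) p q → FF e0 p q` locally uniformly on the disc (uniform continuity on compact sets). `pfl`: `PF (ball 0 1) (FF e0 p q) φ`. `no_pf` (H81/MM/Pf): contradiction.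
-/

set_option autoImplicit false

open Filter Topology Metric Set MeasureTheory

namespace Pool.Agent.H47.MM

open Pool.Agent.H47.OI (AC IV PF Prp FCv)

theorem tpl {μ : ℂ → ℂ} {x c : ℂ} (hc : ‖c‖ = 1) (hμ : AC μ x c) {Φ : ℕ → ℂ → ℂ} (hΦ : ∀ j, Un (Φ j)) {s t : ℝ}
    (hs : s < 1) (ht : t < 1) {w e : ℕ → ℂ} (hw : ∀ j, ‖w j‖ ≤ s) (he : ∀ j, ‖e j‖ ≤ t) (hx : ∀ j, Φ j (w j) = x)
    (hd : Tendsto (fun j => deriv (Φ j) 0) atTop (𝓝 0)) {p q : ℕ} (hp : 2 ≤ p) (hq : 2 ≤ q)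
    (hiv : ∀ j, IV (ball 0 1) (FF (e j) p q) (pb μ (Φ j))) : False := by
  obtain ⟨σ, φ, c', _, hc', hφd, _, hφ0, hφc⟩ :=
    Pool.Agent.H47.OI.scw hc hμ (fun j => (hΦ j).1) (fun j => (hΦ j).2) hs hw hx hd
  obtain ⟨e0, he0, θ, hθ, hlim⟩ := (isCompact_closedBall (0 : ℂ) t).tendsto_subseq
    (x := fun j => e (σ j)) (fun j => mem_closedBall_zero_iff.2 (he (σ j)))
  have he0t : ‖e0‖ ≤ t := mem_closedBall_zero_iff.1 he0
  have he01 : ‖e0‖ < 1 := he0t.trans_lt ht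
  have hp0 : p ≠ 0 := by omega
  have hcv : FCv (fun j => pb μ (Φ (σ (θ j)))) φ c' := by
    intro r hr ε hε
    exact (hφc r hr ε hε).comp hθ.tendsto_atTop
  have hG : ∀ K : Set ℂ, K ⊆ ball 0 1 →
      ContinuousOn (fun x : ℂ × ℂ => FF x.1 p q x.2) (closedBall 0 t ×ˢ K) := by
    intro K hK
    unfold FF Me
    refine ContinuousOn.pow (ContinuousOn.div ?_ ?_ ?_) q
    · exact ((continuous_snd.pow p).add continuous_fst).continuousOn
    · exact (continuous_const.add ((Complex.continuous_conj.comp continuous_fst).mul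
        (continuous_snd.pow p))).continuousOn
    · intro y hy
      have h1 : ‖y.1‖ < 1 := (mem_closedBall_zero_iff.1 hy.1).trans_lt ht
      have h2 : ‖y.2 ^ p‖ < 1 := Pool.H81.MM.pow_lt hp0 (mem_ball_zero_iff.1 (hK hy.2))
      exact Pool.H81.MM.mob_den h1 h2
  have hFF : TendstoLocallyUniformlyOn (fun j => FF (e (σ (θ j))) p q) (FF e0 p q) atTop (ball 0 1) := by
    rw [tendstoLocallyUniformlyOn_iff_forall_isCompact isOpen_ball]
    intro K hK hKc
    rw [Metric.tendstoUniformlyOn_iff]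
    intro ε hε
    have hu := ((isCompact_closedBall (0 : ℂ) t).prod hKc).uniformContinuousOn_of_continuous (hG K hK)
    obtain ⟨δ, hδ, h⟩ := Metric.uniformContinuousOn_iff.1 hu ε hε
    have hl : Tendsto (fun j => e (σ (θ j))) atTop (𝓝 e0) := hlim
    filter_upwards [Metric.tendsto_nhds.1 hl δ hδ] with j hj z hz
    refine h (e0, z) ⟨he0, hz⟩ (e (σ (θ j)), z) ⟨mem_closedBall_zero_iff.2 (he _), hz⟩ ?_
    rw [Prod.dist_eq, dist_self, max_eq_left dist_nonneg, dist_comm]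
    exact hj
  have hPF : PF (ball 0 1) (FF e0 p q) φ := by
    refine Pool.Agent.H47.OI.pfl hc' ?_ hFF hφd hφ0 hcv (fun j => hiv _)
    intro j z hz
    have h1 : ‖e (σ (θ j))‖ < 1 := (he _).trans_lt ht
    exact (Pool.H81.MM.pass_hasDerivAt (lc := q) h1 hp0
      (mem_ball_zero_iff.1 hz)).differentiableAt.differentiableWithinAt
  exact Pool.H81.MM.no_pf hp hq he01 hφd hφ0 hPF

end Pool.Agent.H47.MM
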