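import Pool.Agent.H47.MM.Chn
import Pool.Agent.H31.MMx.Sh

/-!
# Module Vis: visits are univalent

PROOF. Strong induction on `n`, for all `c`, `u`. `chn` with `x`. First alternative: `Φ` restricted to `ball 0 t'`. Second alternative at the time `j < n`: `f^[j] x = ψ b' (η w1)`, `‖η w1‖ < t`: the induction hypothesis gives `H` on `ball 0 t'` with `f^[j] (H z) = ψ b' z`, `H (η w1) = x`. `Ψ = H ∘ η`, `Un Ψ` (`η` maps the disc into `ball 0 t ⊆ ball 0 t'`),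
`f^[n] (Ψ w) = f^[n - j] (ψ b' (η w)) = ψ c (Me e (w ^ m))`, so `f^[n + 1] (Ψ w) = g c ((Me e (w ^ m)) ^ l c) = g c (FF e m (l c) w)`, `Ψ w1 = x`. If `‖e‖ ≤ t'`: `‖w1‖ ≤ s` (`hs`: `Me e (w1 ^ m) = u`, `‖u‖ < t`), contradiction to `NoTwo`. If `t' < ‖e‖`: the shallow pass lemma `sh` (H31/MMx/Sh): `Φ = Ψ ∘ ρ`.
-/

set_option autoImplicit false

open Filter Topology Polynomial Metric Set MeasureTheory

namespace Pool.Agent.H47.MM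

open Pool.Agent.H44.Fatou (rat)

theorem vis {a b : Polynomial ℂ} {C : Set ℂ} (h : Hyp a b C) : ∃ (L0 : ℕ) (ε1 : ℝ), 0 < ε1 ∧ ∀ (L : ℕ) (ε k t t' s : ℝ)
    (g ψ : ℂ → ℂ → ℂ) (l : ℂ → ℕ), Sys a b C L ε g ψ l → ε ≤ ε1 → Nice a b C g ψ k → k < 1 → 0 < t → t < t' → t' < 1 →
    (∀ m : ℕ, m ≤ L → m ≠ 0 → k ≤ t ^ m) → L0 ≤ L →
    (∀ (e u w : ℂ) (m : ℕ), ‖e‖ ≤ t' → ‖u‖ < t → ‖w‖ < 1 → m ≠ 0 → m ≤ L → Me e (w ^ m) = u → ‖w‖ ≤ s) →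
    ∀ x : ℂ, (∀ c ∈ C, NoTwo (rat a b) x L s t' (g c)) → ∀ (n : ℕ) (c : ℂ), c ∈ C → ∀ u : ℂ, ‖u‖ < t →
    (rat a b)^[n] (x : OnePoint ℂ) = ((ψ c u : ℂ) : OnePoint ℂ) →
      ∃ Φ : ℂ → ℂ, DifferentiableOn ℂ Φ (ball 0 t') ∧ InjOn Φ (ball 0 t') ∧
        (∀ w ∈ ball (0 : ℂ) t', (rat a b)^[n] ((Φ w : ℂ) : OnePoint ℂ) = ((ψ c w : ℂ) : OnePoint ℂ)) ∧ Φ u = x := by
  obtain ⟨L0, ε1, hε1, H⟩ := chn h
  refine ⟨L0, ε1, hε1, ?_⟩
  intro L ε k t t' s g ψ l hS hε hN hk ht0 htt ht1 hkt hL hs x hx n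
  induction n using Nat.strong_induction_on with
  | _ n ih =>
    intro c hc u hu hxu
    have hu1 : u ∈ ball (0 : ℂ) 1 := mem_ball_zero_iff.2 (hu.trans (htt.trans ht1))
    have hsub : ball (0 : ℂ) t' ⊆ ball 0 1 := ball_subset_ball ht1.le
    rcases H L ε k t g ψ l hS hε hN hk ht0 (htt.trans ht1) hkt n c hc x u hu1 hxu with
      ⟨Φ, hΦ, hΦf, hΦu⟩ | ⟨j, hj, b', hb', e, w1, m, η, he, hm, hmL, hη, hη0, hηf, hw1, hMe, hxj⟩
    · exact ⟨Φ, hΦ.1.mono hsub, hΦ.2.mono hsub, fun w hw => hΦf w (hsub hw), hΦu⟩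
    · obtain ⟨G, hG1, hG2, hG3, hG4⟩ := ih j hj b' hb' (η w1) (hηf w1 hw1).1 hxj
      have hηt : ∀ w ∈ ball (0 : ℂ) 1, η w ∈ ball (0 : ℂ) t' := fun w hw =>
        mem_ball_zero_iff.2 ((hηf w hw).1.trans htt)
      have hΨ : Un (G ∘ η) := by
        refine ⟨hG1.comp hη.1 hηt, ?_⟩
        intro w hw w' hw' hww
        exact hη.2 hw hw' (hG2 (hηt w hw) (hηt w' hw') hww)
      have hΨf : ∀ w ∈ ball (0 : ℂ) 1, (rat a b)^[n] ((((G ∘ η) w : ℂ)) : OnePoint ℂ) = ((ψ c (Me e (w ^ m)) : ℂ) : OnePoint ℂ) := by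
        intro w hw
        have h1 : n = (n - j) + j := by omega
        rw [h1, Function.iterate_add_apply]
        show (rat a b)^[n - j] ((rat a b)^[j] ((G (η w) : ℂ) : OnePoint ℂ)) = _
        rw [hG3 _ (hηt w hw)]
        exact (hηf w hw).2
      have he1 : ‖e‖ < 1 := mem_ball_zero_iff.1 he
      have hw11 : ‖w1‖ < 1 := mem_ball_zero_iff.1 hw1
      rcases le_or_gt ‖e‖ t' with het | het
      · exfalso
        refine hx c hc (n + 1) m (l c) hm (hmL.trans hL) (hS.l2 c hc) (hS.lL c hc) e het (G ∘ η) hΨ ?_ w1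
          (hs e u w1 m het hu hw11 (by omega) (hmL.trans hL) hMe) hG4
        intro w hw
        rw [Function.iterate_succ_apply', hΨf w hw]
        exact hS.fp c hc _ (me_pow he hw (by omega))
      · obtain ⟨ρ, hρ1, hρ2, hρ3, hρ4⟩ := Pool.Agent.H31.MMx.sh ht1 (show m ≠ 0 by omega) he1 het (hu.trans htt) hw11 hMe
        refine ⟨(G ∘ η) ∘ ρ, hΨ.1.comp hρ1 fun z hz => (hρ3 z hz).1, ?_, ?_, ?_⟩
        · intro z hz z' hz' hzz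
          exact hρ2 hz hz' (hΨ.2 (hρ3 z hz).1 (hρ3 z' hz').1 hzz)
        · intro z hz
          show (rat a b)^[n] ((((G ∘ η) (ρ z) : ℂ)) : OnePoint ℂ) = _
          rw [hΨf _ (hρ3 z hz).1, (hρ3 z hz).2]
        · show (G ∘ η) (ρ u) = x
          rw [hρ4]
          exact hG4

end Pool.Agent.H47.MM
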